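import Pool.Agent.Helper65.PF.Swap
import Pool.Graph.R_pool_sql_team_seeded_3997aac3.Q132.PC.Pair

/-!
The converse: the Pisot substitution conjecture gives few transpositions.
-/

set_option autoImplicit false

namespace Pool.Agent.Helper65.PF
open Pool.Agent.H812R2.PI Pool.Agent.Q132.PT Pool.Agent.Q132.PC
open scoped BigOperators
variable {d : ℕ}

theorem take_mem_lang (σ : Fin d → List (Fin d)) (n : ℕ) (hn : 1 ≤ n) (a : Fin d) (t : ℕ) :
    (iter σ n a).take t ∈ lang σ :=
  ⟨n, hn, a, (List.take_prefix t _).isInfix⟩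

/-- discrepancy of the prefixes of the concatenation -/
theorem disc_cat {σ : Fin d → List (Fin d)} (P : PD (inc σ)) {K : ℝ} (hK0 : 0 ≤ K)
    (hK : ∀ w ∈ lang σ, ∀ i, |(ab w i : ℝ) - (w.length : ℝ) * P.u i| ≤ K) (n : ℕ) (hn : 1 ≤ n)
    (i j k : Fin d) (t : ℕ) (ht : t ≤ (iter σ n i ++ iter σ n j).length) :
    |((((iter σ n i ++ iter σ n j).take t).count k : ℕ) : ℝ) - t * P.u k| ≤ 2 * K := by
  rw [List.length_append] at ht
  rw [List.take_append, List.count_append]
  have h1 := hK _ (take_mem_lang σ n hn i t) k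
  have h2 := hK _ (take_mem_lang σ n hn j (t - (iter σ n i).length)) k
  unfold ab at h1 h2
  rw [List.length_take] at h1 h2
  have h3 : ((min t (iter σ n i).length : ℕ) : ℝ) +
      ((min (t - (iter σ n i).length) (iter σ n j).length : ℕ) : ℝ) = t := by
    have : min t (iter σ n i).length + min (t - (iter σ n i).length) (iter σ n j).length = t := by
      omega
    exact_mod_cast this
  have h4 : ((min t (iter σ n i).length : ℕ) : ℝ) * P.u k +
      ((min (t - (iter σ n i).length) (iter σ n j).length : ℕ) : ℝ) * P.u k = t * P.u k := by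
    rw [← add_mul, h3]
  rw [abs_le] at h1 h2 ⊢
  rw [Nat.cast_add]
  rw [Int.cast_natCast] at h1 h2
  constructor <;> linarith [h1.1, h1.2, h2.1, h2.2]

open Classical in
/-- the different edges of the two concatenations -/
theorem bad_card {σ : Fin d → List (Fin d)} (n : ℕ) (i j : Fin d) :
    ((Finset.range (iter σ n j ++ iter σ n i).length).filter
      (Bad (iter σ n i ++ iter σ n j) (iter σ n j ++ iter σ n i))).card ≤
    ((Finset.range (iter σ n i).length).filter
      (BadAt (((inc σ) ^ n).mulVec 0) (iter σ n i) (iter σ n j))).card +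
    ((Finset.range (iter σ n i).length).filter
      (BadAt (((inc σ) ^ n).mulVec (ev j)) (iter σ n i) (iter σ n i))).card +
    (((Finset.range (iter σ n j).length).filter
      (BadAt (((inc σ) ^ n).mulVec (-ev i)) (iter σ n j) (iter σ n j))).card +
    ((Finset.range (iter σ n j).length).filter
      (BadAt (((inc σ) ^ n).mulVec (ev j - ev i)) (iter σ n j) (iter σ n i))).card) := by
  obtain ⟨U, hU⟩ : ∃ U, U = iter σ n i := ⟨_, rfl⟩
  obtain ⟨V, hV⟩ : ∃ V, V = iter σ n j := ⟨_, rfl⟩
  have hUe : ((inc σ) ^ n).mulVec (ev i) = ab U := by rw [hU, ← inc_iter, ab_subst]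
  have hVe : ((inc σ) ^ n).mulVec (ev j) = ab V := by rw [hV, ← inc_iter, ab_subst]
  rw [Matrix.mulVec_zero, Matrix.mulVec_neg, Matrix.mulVec_sub, hUe, hVe, ← hU, ← hV]
  have hsU := ab_sum U
  have hsV := ab_sum V
  obtain ⟨A, hA⟩ : ∃ A, A = (Finset.range U.length).filter (BadAt 0 U V) := ⟨_, rfl⟩
  obtain ⟨B, hB⟩ : ∃ B, B = (Finset.range U.length).filter (BadAt (ab V) U U) := ⟨_, rfl⟩
  obtain ⟨C, hC⟩ : ∃ C, C = (Finset.range V.length).filter (BadAt (-ab U) V V) := ⟨_, rfl⟩
  obtain ⟨D, hD⟩ : ∃ D, D = (Finset.range V.length).filter (BadAt (ab V - ab U) V U) := ⟨_, rfl⟩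
  rw [← hA, ← hB, ← hC, ← hD]
  have hsub : (Finset.range (V ++ U).length).filter (Bad (U ++ V) (V ++ U)) ⊆
      (A ∪ B) ∪ ((C ∪ D).image fun t => t + U.length) := by
    intro t ht
    rw [Finset.mem_filter, Finset.mem_range, List.length_append] at ht
    obtain ⟨ht, hbad⟩ := ht
    unfold Bad at hbad
    rw [Finset.mem_union, Finset.mem_union, Finset.mem_image]
    by_cases h1 : t < U.length
    · left
      by_cases h2 : t < V.length
      · left
        rw [hA, Finset.mem_filter, Finset.mem_range]
        refine ⟨h1, t, h2, by simp, fun hs => hbad ?_⟩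
        obtain ⟨hs1, hs2⟩ := hs
        rw [zero_add] at hs1
        rw [List.take_append_of_le_length h1.le, List.take_append_of_le_length h2.le,
          List.getElem?_append_left h1, List.getElem?_append_left h2]
        exact ⟨hs1, hs2⟩
      · right
        rw [hB, Finset.mem_filter, Finset.mem_range]
        refine ⟨h1, t - V.length, by omega, ?_, fun hs => hbad ?_⟩
        · rw [hsV]
          push Not at h2
          rw [Nat.cast_sub h2]
          ring
        · push Not at h2
          obtain ⟨hs1, hs2⟩ := hs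
          rw [List.take_append_of_le_length h1.le, List.take_append, List.take_of_length_le h2,
            List.getElem?_append_left h1, List.getElem?_append_right h2, ab_append]
          exact ⟨hs1, hs2⟩
    · right
      push Not at h1
      refine ⟨t - U.length, ?_, by omega⟩
      rw [Finset.mem_union]
      by_cases h2 : t < V.length
      · left
        rw [hC, Finset.mem_filter, Finset.mem_range]
        refine ⟨by omega, t, h2, ?_, fun hs => hbad ?_⟩
        · simp only [Pi.neg_apply, Finset.sum_neg_distrib]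
          rw [hsU, Nat.cast_sub h1]
          ring
        · obtain ⟨hs1, hs2⟩ := hs
          rw [List.take_append, List.take_of_length_le h1, List.take_append_of_le_length h2.le,
            List.getElem?_append_right h1, List.getElem?_append_left h2, ab_append, hs1]
          exact ⟨by abel, hs2⟩
      · right
        push Not at h2
        rw [hD, Finset.mem_filter, Finset.mem_range]
        refine ⟨by omega, t - V.length, by omega, ?_, fun hs => hbad ?_⟩
        · simp only [Pi.sub_apply, Finset.sum_sub_distrib]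
          rw [hsU, hsV, Nat.cast_sub h1, Nat.cast_sub h2]
          ring
        · obtain ⟨hs1, hs2⟩ := hs
          rw [List.take_append, List.take_of_length_le h1, List.take_append,
            List.take_of_length_le h2, List.getElem?_append_right h1,
            List.getElem?_append_right h2, ab_append, ab_append, hs1]
          exact ⟨by abel, hs2⟩
  refine (Finset.card_le_card hsub).trans ((Finset.card_union_le _ _).trans ?_)
  exact Nat.add_le_add (Finset.card_union_le _ _)
    (Finset.card_image_le.trans (Finset.card_union_le _ _))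

/-- **the conjecture implies that few transpositions suffice** -/
theorem swaps_of_semi {m : ℕ} (σ : Fin (m+1) → List (Fin (m+1))) (hM : PisotMat (inc σ)) (lam : ℝ)
    (hlam : 1 < lam) (hroot : ((inc σ).map (Int.cast : ℤ → ℂ)).charpoly.IsRoot (lam : ℂ))
    (hS : SemiConjToral σ) (ε : ℝ) (hε : 0 < ε) :
    ∃ n₀ : ℕ, ∀ N ≥ n₀, ∀ i j, ∃ n : ℕ, (n : ℝ) ≤ ε * lam ^ N ∧
      Swaps n (iter σ N i ++ iter σ N j) (iter σ N j ++ iter σ N i) := by
  classical
  obtain ⟨P⟩ := Pool.Agent.Q132.PC.exists_PD' (inc σ) (fun i j => by unfold inc; positivity) hM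
  have hP := lam_eq hM P lam hlam hroot
  obtain ⟨K, hK0, hK⟩ := balanced P
  -- a positive lower bound for the frequencies
  obtain ⟨k₀, -, hk₀⟩ := Finset.exists_min_image (Finset.univ : Finset (Fin (m+1))) P.u
    Finset.univ_nonempty
  have hu0 := P.u_pos k₀
  obtain ⟨C₀, hC₀⟩ := exists_nat_ge (4 * K / P.u k₀)
  obtain ⟨C, hCd⟩ : ∃ C, C = C₀ + 1 := ⟨_, rfl⟩
  have hCK : 4 * K ≤ ((C : ℝ) - 1) * P.u k₀ := by
    rw [div_le_iff₀ hu0] at hC₀
    rw [hCd]
    push_cast
    linarith
  have hCpos : (0 : ℝ) < C := by rw [hCd]; positivity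
  -- the prefixes
  have hpre : ∀ n, 1 ≤ n → ∀ i j, ∀ t < (iter σ n j ++ iter σ n i).length, ∃ s, s ≤ t + C ∧
      ∀ k, ((iter σ n j ++ iter σ n i).take (t+1)).count k ≤
        ((iter σ n i ++ iter σ n j).take s).count k := by
    intro n hn i j t ht
    have hlen : (iter σ n j ++ iter σ n i).length = (iter σ n i ++ iter σ n j).length := by
      rw [List.length_append, List.length_append, add_comm]
    refine ⟨t + C, le_rfl, fun k => ?_⟩
    by_cases hs : t + C ≤ (iter σ n i ++ iter σ n j).length
    · have h1 := disc_cat P hK0 hK n hn i j k (t + C) hs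
      have h2 := disc_cat P hK0 hK n hn j i k (t + 1) (by omega)
      have h3 := hk₀ k (Finset.mem_univ k)
      rw [abs_le] at h1 h2
      have h4 : (1 : ℝ) ≤ C := by rw [hCd]; push_cast; linarith [Nat.cast_nonneg (α := ℝ) C₀]
      have h5 : ((C : ℝ) - 1) * P.u k₀ ≤ ((C : ℝ) - 1) * P.u k :=
        mul_le_mul_of_nonneg_left h3 (by linarith)
      have h6 : ((((iter σ n j ++ iter σ n i).take (t+1)).count k : ℕ) : ℝ) ≤
          ((((iter σ n i ++ iter σ n j).take (t + C)).count k : ℕ) : ℝ) := by
        push_cast at h1 h2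
        nlinarith [h1.1, h2.2]
      exact_mod_cast h6
    · push Not at hs
      rw [List.take_of_length_le hs.le]
      refine ((List.take_sublist _ _).count_le _).trans (le_of_eq ?_)
      rw [List.count_append, List.count_append, add_comm]
  -- the different edges
  have hδ : 0 < ε / (4 * C) := by positivity
  have hclose : ∀ᶠ n : ℕ in Filter.atTop, ∀ i j : Fin (m+1),
      (((Finset.range (iter σ n i).length).filter
        (BadAt (((inc σ) ^ n).mulVec 0) (iter σ n i) (iter σ n j))).card : ℝ) ≤
          ε / (4 * C) * P.lam ^ n ∧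
      (((Finset.range (iter σ n i).length).filter
        (BadAt (((inc σ) ^ n).mulVec (ev j)) (iter σ n i) (iter σ n i))).card : ℝ) ≤
          ε / (4 * C) * P.lam ^ n ∧
      (((Finset.range (iter σ n j).length).filter
        (BadAt (((inc σ) ^ n).mulVec (-ev i)) (iter σ n j) (iter σ n j))).card : ℝ) ≤
          ε / (4 * C) * P.lam ^ n ∧
      (((Finset.range (iter σ n j).length).filter
        (BadAt (((inc σ) ^ n).mulVec (ev j - ev i)) (iter σ n j) (iter σ n i))).card : ℝ) ≤
          ε / (4 * C) * P.lam ^ n := by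
    rw [Filter.eventually_all]
    intro i
    rw [Filter.eventually_all]
    intro j
    obtain ⟨n₁, h₁⟩ := pair_close P hS i j 0 hδ
    obtain ⟨n₂, h₂⟩ := pair_close P hS i i (ev j) hδ
    obtain ⟨n₃, h₃⟩ := pair_close P hS j j (-ev i) hδ
    obtain ⟨n₄, h₄⟩ := pair_close P hS j i (ev j - ev i) hδ
    filter_upwards [Filter.eventually_ge_atTop n₁, Filter.eventually_ge_atTop n₂,
      Filter.eventually_ge_atTop n₃, Filter.eventually_ge_atTop n₄] with n k₁ k₂ k₃ k₄
    exact ⟨h₁ n k₁, h₂ n k₂, h₃ n k₃, h₄ n k₄⟩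
  obtain ⟨n₀, hn₀⟩ := Filter.eventually_atTop.1 hclose
  refine ⟨max n₀ 1, fun N hN i j => ?_⟩
  have hN1 : 1 ≤ N := (le_max_right _ _).trans hN
  obtain ⟨h1, h2, h3, h4⟩ := hn₀ N ((le_max_left _ _).trans hN) i j
  have hab : ab (iter σ N i ++ iter σ N j) = ab (iter σ N j ++ iter σ N i) := by
    rw [ab_append, ab_append]
    exact add_comm _ _
  obtain ⟨n, hn, hs⟩ := swaps_of_bad _ _ C hab (hpre N hN1 i j)
  refine ⟨n, ?_, hs⟩
  have h5 := bad_card (σ := σ) N i j
  have h6 : (n : ℝ) ≤ C * (ε / (4 * C) * P.lam ^ N + ε / (4 * C) * P.lam ^ N +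
      (ε / (4 * C) * P.lam ^ N + ε / (4 * C) * P.lam ^ N)) := by
    have h7 : (n : ℝ) ≤ ((C * ((Finset.range (iter σ N j ++ iter σ N i).length).filter
      (Bad (iter σ N i ++ iter σ N j) (iter σ N j ++ iter σ N i))).card : ℕ) : ℝ) := by
      exact_mod_cast hn
    refine h7.trans ?_
    rw [Nat.cast_mul]
    refine mul_le_mul_of_nonneg_left ?_ hCpos.le
    have h8 := (Nat.cast_le (α := ℝ)).2 h5
    push_cast at h8
    linarith
  refine h6.trans (le_of_eq ?_)
  rw [hP]
  field_simp
  ring

end Pool.Agent.Helper65.PF
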