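import Pool.Agent.Helper65.PF.Nrm
import Pool.Graph.R_pool_sql_team_seeded_3997aac3.Q132.PT.Cost

/-!
The path of a word as a chain, and the minors of the matrix of the paths of a substitution.
-/

set_option autoImplicit false

namespace Pool.Agent.Helper65.PF
open Pool.Agent.H812R2.PI Pool.Agent.Q132.PT
open scoped BigOperators
variable {d : ℕ}

/-- The edges of direction `k` of the path of the word `w` in the lattice `ℤ^d`: the sum of the
monomials `z^p`, where `p` is the vector of the numbers of the letters in the prefix which precedes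
an occurrence of the letter `k` in `w`. -/
noncomputable def pth (k : Fin d) : List (Fin d) → Lau d
  | [] => 0
  | a :: w => (if a = k then 1 else 0) + mon (ev a) * pth k w

/-- The matrix of the paths of the words `σ j`. -/
noncomputable def fox (σ : Fin d → List (Fin d)) : Matrix (Fin d) (Fin d) (Lau d) :=
  fun k j => pth k (σ j)

theorem pth_append (k : Fin d) (u v : List (Fin d)) :
    pth k (u ++ v) = pth k u + mon (ab u) * pth k v := by
  induction u with
  | nil => rw [List.nil_append, ab_nil, mon_zero, one_mul, pth, zero_add]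
  | cons a u ih =>
    rw [List.cons_append, pth, pth, ih, ab_cons, mon_add]
    ring

theorem pth_fund (w : List (Fin d)) :
    ∑ k, (mon (ev k) - 1) * pth k w = mon (ab w) - 1 := by
  induction w with
  | nil => simp [pth, ab_nil, mon_zero]
  | cons a w ih =>
    have h1 : ∀ k, (mon (ev k) - 1) * pth k (a :: w) =
        (if a = k then (mon (ev k) - 1) else 0) + mon (ev a) * ((mon (ev k) - 1) * pth k w) := by
      intro k
      rw [pth]
      split_ifs <;> ring
    rw [Finset.sum_congr rfl fun k _ => h1 k, Finset.sum_add_distrib, ← Finset.mul_sum, ih,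
      Finset.sum_ite_eq Finset.univ a, if_pos (Finset.mem_univ a), ab_cons, mon_add]
    ring

theorem pth_coeff (k : Fin d) (w : List (Fin d)) (z v : Fin d → ℤ) :
    (mon z * pth k w).coeff v = ((edges z w).count (v, k) : ℤ) := by
  classical
  induction w generalizing z with
  | nil => simp [pth, edges]
  | cons a w ih =>
    rw [pth, edges, List.count_cons, mul_add, ← mul_assoc, ← mon_add, AddMonoidAlgebra.coeff_add,
      Finsupp.add_apply, ih]
    by_cases hak : a = k
    · subst hak
      rw [if_pos rfl, mul_one]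
      by_cases hzv : z = v
      · subst hzv
        simp [mon]
        ring
      · have h1 : ¬ ((z, a) = (v, a)) := by
          rintro h
          exact hzv (Prod.mk.inj h).1
        simp [mon, hzv]
    · rw [if_neg hak, mul_zero]
      have h1 : ¬ ((z, a) = (v, k)) := by
        rintro h
        exact hak (Prod.mk.inj h).2
      simp [hak]

/-- the number of the edges which are not common is bounded by the norm of the difference of the
chains -/
theorem dif_le (u v : List (Fin d)) : dif u v ≤ ∑ k, nrm (pth k u - pth k v) := by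
  classical
  unfold dif
  have h1 : (E u \ E v).card = ∑ k, ((E u \ E v).filter fun e => e.2 = k).card :=
    Finset.card_eq_sum_card_fiberwise fun e _ => Finset.mem_univ e.2
  rw [h1]
  refine Finset.sum_le_sum fun k _ => ?_
  obtain ⟨s, hs⟩ : ∃ s, s = ((E u \ E v).filter fun e => e.2 = k).image Prod.fst := ⟨_, rfl⟩
  have h2 : s.card = ((E u \ E v).filter fun e => e.2 = k).card := by
    rw [hs]
    refine Finset.card_image_of_injOn ?_
    intro e he f hf hef
    have he' := (Finset.mem_filter.1 (Finset.mem_coe.1 he)).2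
    have hf' := (Finset.mem_filter.1 (Finset.mem_coe.1 hf)).2
    exact Prod.ext hef (he'.trans hf'.symm)
  rw [← h2]
  refine card_le_nrm _ s fun x hx => ?_
  rw [hs, Finset.mem_image] at hx
  obtain ⟨e, he, rfl⟩ := hx
  obtain ⟨he1, he2⟩ := Finset.mem_filter.1 he
  obtain ⟨he3, he4⟩ := Finset.mem_sdiff.1 he1
  have h3 := pth_coeff k u 0 e.1
  have h4 := pth_coeff k v 0 e.1
  rw [mon_zero, one_mul] at h3 h4
  rw [AddMonoidAlgebra.coeff_sub, Finsupp.sub_apply, h3, h4]
  have he : (e.1, k) = e := Prod.ext rfl he2.symm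
  rw [he]
  have h5 : 0 < (edges 0 u).count e := List.count_pos_iff.2 (List.mem_toFinset.1 he3)
  have h6 : (edges 0 v).count e = 0 := by
    rw [List.count_eq_zero]
    intro h
    exact he4 (List.mem_toFinset.2 h)
  rw [h6]
  omega

/-- the commutator identity -/
theorem pth_comm (S : Fin d → List (Fin d)) (i j k : Fin d) :
    pth k (S i ++ S j) - pth k (S j ++ S i) =
      ∑ a, (mon (ev a) - 1) * (fox S a i * fox S k j - fox S a j * fox S k i) := by
  have h1 : ∀ a, (mon (ev a) - 1) * (fox S a i * fox S k j - fox S a j * fox S k i) =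
      ((mon (ev a) - 1) * pth a (S i)) * fox S k j -
        ((mon (ev a) - 1) * pth a (S j)) * fox S k i := by
    intro a
    unfold fox
    ring
  rw [Finset.sum_congr rfl fun a _ => h1 a, Finset.sum_sub_distrib, ← Finset.sum_mul,
    ← Finset.sum_mul, pth_fund, pth_fund, pth_append, pth_append]
  unfold fox
  ring

theorem cst_le_minors (S : Fin d → List (Fin d)) (i j : Fin d) :
    cst S i j ≤ ∑ k, ∑ a, 2 * nrm (fox S a i * fox S k j - fox S a j * fox S k i) := by
  have h0 : cst S i j = dif (S i ++ S j) (S j ++ S i) := by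
    unfold cst dS
    simp [ext]
  rw [h0]
  refine (dif_le _ _).trans (Finset.sum_le_sum fun k _ => ?_)
  rw [pth_comm]
  refine (nrm_sum _ _).trans (Finset.sum_le_sum fun a _ => ?_)
  refine (nrm_mul _ _).trans (Nat.mul_le_mul_right _ ?_)
  refine (nrm_sub _ _).trans ?_
  rw [nrm_mon, nrm_one]

/-- extending a pair to a numbering -/
theorem exists_numbering {m : ℕ} {a b : Fin (m+2)} (h : a ≠ b) :
    ∃ e : Fin 2 ⊕ Fin m ≃ Fin (m+2), e (Sum.inl 0) = a ∧ e (Sum.inl 1) = b := by
  obtain ⟨e₀⟩ : Nonempty (Fin 2 ⊕ Fin m ≃ Fin (m+2)) :=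
    ⟨finSumFinEquiv.trans (finCongr (by omega))⟩
  obtain ⟨p, hp⟩ : ∃ p, p = Equiv.swap (e₀ (Sum.inl 0)) a := ⟨_, rfl⟩
  have hp0 : p (e₀ (Sum.inl 0)) = a := by rw [hp]; exact Equiv.swap_apply_left _ _
  have hne : p (e₀ (Sum.inl 1)) ≠ a := by
    intro h1
    have h2 := e₀.injective (p.injective (h1.trans hp0.symm))
    simp at h2
  refine ⟨(e₀.trans p).trans (Equiv.swap (p (e₀ (Sum.inl 1))) b), ?_, ?_⟩
  · simp only [Equiv.trans_apply]
    rw [hp0, Equiv.swap_apply_of_ne_of_ne hne.symm h]
  · simp only [Equiv.trans_apply]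
    exact Equiv.swap_apply_left _ _

/-- the norm of a determinant -/
theorem nrm_det {n : ℕ} (B : Matrix (Fin n) (Fin n) (Lau d)) (K : ℕ)
    (h : ∀ c, ∑ r, nrm (B r c) ≤ K) : nrm B.det ≤ K ^ n := by
  classical
  have h1 : nrm B.det ≤ ∑ p : Equiv.Perm (Fin n), ∏ c, nrm (B (p c) c) := by
    rw [Matrix.det_apply]
    refine (nrm_sum _ _).trans (Finset.sum_le_sum fun p _ => ?_)
    refine le_trans ?_ (nrm_prod Finset.univ fun c => B (p c) c)
    rcases Int.units_eq_one_or (Equiv.Perm.sign p) with h | h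
    · rw [h, one_smul]
    · rw [h, Units.neg_smul, one_smul, nrm_neg]
  have h2 : ∑ p : Equiv.Perm (Fin n), ∏ c, nrm (B (p c) c) ≤ ∏ c, ∑ r, nrm (B r c) := by
    rw [Finset.prod_univ_sum, Fintype.piFinset_univ]
    rw [← Finset.sum_image (s := Finset.univ) (g := fun p : Equiv.Perm (Fin n) => (p : Fin n → Fin n))
      (f := fun q : Fin n → Fin n => ∏ c, nrm (B (q c) c))]
    · exact Finset.sum_le_sum_of_subset (Finset.subset_univ _)
    · intro p _ q _ hpq
      exact Equiv.coe_fn_injective hpq
  refine h1.trans (h2.trans ?_)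
  refine (Finset.prod_le_prod (fun _ _ => Nat.zero_le _) fun c _ => h c).trans ?_
  rw [Finset.prod_const, Finset.card_univ, Fintype.card_fin]

/-- the minors of order two of a matrix are bounded by the inverse matrix -/
theorem nrm_minor {m : ℕ} (A B : Matrix (Fin (m+2)) (Fin (m+2)) (Lau (m+2))) (hAB : A * B = 1)
    (K : ℕ) (hK : ∀ c, ∑ r, nrm (B r c) ≤ K) {i j a k : Fin (m+2)} (hij : i ≠ j) (hak : a ≠ k) :
    nrm (A a i * A k j - A a j * A k i) ≤ K ^ m := by
  classical
  obtain ⟨e, he0, he1⟩ := exists_numbering hak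
  obtain ⟨f, hf0, hf1⟩ := exists_numbering hij
  obtain ⟨A', hA'⟩ : ∃ A', A' = A.submatrix e f := ⟨_, rfl⟩
  obtain ⟨B', hB'⟩ : ∃ B', B' = B.submatrix f e := ⟨_, rfl⟩
  have hAB' : A' * B' = 1 := by
    rw [hA', hB', Matrix.submatrix_mul_equiv, hAB, Matrix.submatrix_one_equiv]
  have hdet : nrm A'.det = 1 := by
    refine nrm_unit (g := B'.det) ?_
    rw [← Matrix.det_mul, hAB', Matrix.det_one]
  have hblock : A' * Matrix.fromBlocks 1 B'.toBlocks₁₂ 0 B'.toBlocks₂₂ =
      Matrix.fromBlocks A'.toBlocks₁₁ 0 A'.toBlocks₂₁ 1 := by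
    have h1 : Matrix.fromBlocks A'.toBlocks₁₁ A'.toBlocks₁₂ A'.toBlocks₂₁ A'.toBlocks₂₂ *
        Matrix.fromBlocks B'.toBlocks₁₁ B'.toBlocks₁₂ B'.toBlocks₂₁ B'.toBlocks₂₂ =
        Matrix.fromBlocks 1 0 0 1 := by
      rw [Matrix.fromBlocks_toBlocks, Matrix.fromBlocks_toBlocks, hAB', Matrix.fromBlocks_one]
    rw [Matrix.fromBlocks_multiply, Matrix.fromBlocks_inj] at h1
    conv_lhs => rw [← Matrix.fromBlocks_toBlocks A']
    rw [Matrix.fromBlocks_multiply, Matrix.fromBlocks_inj]
    refine ⟨?_, h1.2.1, ?_, h1.2.2.2⟩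
    · simp
    · simp
  have hd := congrArg Matrix.det hblock
  rw [Matrix.det_mul, Matrix.det_fromBlocks_zero₂₁, Matrix.det_fromBlocks_zero₁₂, Matrix.det_one,
    one_mul, Matrix.det_one, mul_one, Matrix.det_fin_two] at hd
  have hL : A'.toBlocks₁₁ 0 0 * A'.toBlocks₁₁ 1 1 - A'.toBlocks₁₁ 0 1 * A'.toBlocks₁₁ 1 0 =
      A a i * A k j - A a j * A k i := by
    simp only [Matrix.toBlocks₁₁, Matrix.of_apply, hA', Matrix.submatrix_apply, he0, he1, hf0, hf1]
  rw [← hL, ← hd]
  refine (nrm_mul _ _).trans ?_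
  rw [hdet, one_mul]
  refine nrm_det _ K fun c => ?_
  refine le_trans ?_ (hK (e (Sum.inr c)))
  rw [← Equiv.sum_comp f (fun r => nrm (B r (e (Sum.inr c)))), Fintype.sum_sum_type]
  refine le_trans (le_of_eq ?_) (Nat.le_add_left _ _)
  refine Finset.sum_congr rfl fun r _ => ?_
  simp only [Matrix.toBlocks₂₂, Matrix.of_apply, hB', Matrix.submatrix_apply]

/-- **the costs are bounded by the inverse of the matrix of the paths** -/
theorem cst_le_inv {m : ℕ} (S : Fin (m+2) → List (Fin (m+2)))
    (B : Matrix (Fin (m+2)) (Fin (m+2)) (Lau (m+2))) (hB : fox S * B = 1)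
    (K : ℕ) (hK : ∀ c, ∑ r, nrm (B r c) ≤ K) (i j : Fin (m+2)) :
    cst S i j ≤ 2 * (m+2) ^ 2 * K ^ m := by
  by_cases hij : i = j
  · rw [hij, cst_self]
    exact Nat.zero_le _
  · refine (cst_le_minors S i j).trans ?_
    have h1 : ∀ k a, 2 * nrm (fox S a i * fox S k j - fox S a j * fox S k i) ≤ 2 * K ^ m := by
      intro k a
      refine Nat.mul_le_mul_left _ ?_
      by_cases hak : a = k
      · subst hak
        rw [show fox S a i * fox S a j - fox S a j * fox S a i = 0 by ring, nrm_zero]
        exact Nat.zero_le _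
      · exact nrm_minor _ B hB K hK hij hak
    refine (Finset.sum_le_sum fun k _ => Finset.sum_le_sum fun a _ => h1 k a).trans ?_
    simp only [Finset.sum_const, Finset.card_univ, Fintype.card_fin, smul_eq_mul]
    exact le_of_eq (by ring)

end Pool.Agent.Helper65.PF
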