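import Pool.Agent.Helper65.PF.Fox

/-!
Chains of the elements of the free group, and the inverse automorphism.
-/

set_option autoImplicit false

namespace Pool.Agent.Helper65.PF
open Pool.Agent.H812R2.PI Pool.Agent.Q132.PT
open scoped BigOperators
variable {d : ℕ}

/-- the chain of a word in the letters and their inverses -/
noncomputable def fx (k : Fin d) : List (Fin d × Bool) → Lau d
  | [] => 0
  | (a, true) :: w => (if a = k then 1 else 0) + mon (ev a) * fx k w
  | (a, false) :: w => mon (-ev a) * (fx k w - if a = k then 1 else 0)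

/-- the end point of the path of a word in the letters and their inverses -/
def abl : List (Fin d × Bool) → Fin d → ℤ
  | [] => 0
  | (a, true) :: w => ev a + abl w
  | (a, false) :: w => -ev a + abl w

theorem mon_neg_mul (v : Fin d → ℤ) (f : Lau d) : mon (-v) * (mon v * f) = f := by
  rw [← mul_assoc, ← mon_add, neg_add_cancel, mon_zero, one_mul]

theorem mon_mul_neg (v : Fin d → ℤ) (f : Lau d) : mon v * (mon (-v) * f) = f := by
  rw [← mul_assoc, ← mon_add, add_neg_cancel, mon_zero, one_mul]

theorem fx_append (k : Fin d) (u v : List (Fin d × Bool)) :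
    fx k (u ++ v) = fx k u + mon (abl u) * fx k v := by
  induction u with
  | nil => simp [fx, abl, mon_zero]
  | cons x u ih =>
    obtain ⟨a, b⟩ := x
    cases b
    · rw [List.cons_append, fx, fx, abl, ih, mon_add]
      ring
    · rw [List.cons_append, fx, fx, abl, ih, mon_add]
      ring

theorem abl_append (u v : List (Fin d × Bool)) : abl (u ++ v) = abl u + abl v := by
  induction u with
  | nil => simp [abl]
  | cons x u ih =>
    obtain ⟨a, b⟩ := x
    cases b
    · rw [List.cons_append, abl, abl, ih, add_assoc]
    · rw [List.cons_append, abl, abl, ih, add_assoc]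

theorem fx_step (k : Fin d) {u v : List (Fin d × Bool)} (h : FreeGroup.Red.Step u v) :
    fx k u = fx k v ∧ abl u = abl v := by
  cases h with
  | @not L₁ L₂ x b =>
    have h1 : fx k ((x, b) :: (x, !b) :: L₂) = fx k L₂ := by
      cases b
      · simp only [Bool.not_false, fx]
        rw [add_sub_cancel_left, mon_neg_mul]
      · simp only [Bool.not_true, fx]
        rw [mon_mul_neg]
        ring
    have h2 : abl ((x, b) :: (x, !b) :: L₂) = abl L₂ := by
      cases b
      · simp only [Bool.not_false, abl]
        rw [neg_add_cancel_left]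
      · simp only [Bool.not_true, abl]
        rw [add_neg_cancel_left]
    rw [fx_append, fx_append, abl_append, abl_append, h1, h2]
    exact ⟨rfl, rfl⟩

theorem fx_red (k : Fin d) {u v : List (Fin d × Bool)} (h : FreeGroup.Red u v) :
    fx k u = fx k v ∧ abl u = abl v := by
  induction h with
  | refl => exact ⟨rfl, rfl⟩
  | tail _ h ih => exact ⟨ih.1.trans (fx_step k h).1, ih.2.trans (fx_step k h).2⟩

/-- The edges of direction `k` of the path of an element of the free group in the lattice `ℤ^d`,
counted with sign: an edge which is traversed in the positive and in the negative direction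
cancels. (The abelianised Fox derivative.) -/
noncomputable def chn (k : Fin d) (x : FreeGroup (Fin d)) : Lau d := fx k x.toWord

/-- the end point of the path -/
def abf (x : FreeGroup (Fin d)) : Fin d → ℤ := abl x.toWord

theorem chn_mk (k : Fin d) (L : List (Fin d × Bool)) : chn k (FreeGroup.mk L) = fx k L := by
  unfold chn
  rw [FreeGroup.toWord_mk]
  exact (fx_red k FreeGroup.reduce.red).1.symm

theorem abf_mk (L : List (Fin d × Bool)) : abf (FreeGroup.mk L) = abl L := by
  unfold abf
  rw [FreeGroup.toWord_mk]
  rcases Nat.eq_zero_or_pos d with h | h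
  · subst h
    funext i
    exact i.elim0
  · exact (fx_red ⟨0, h⟩ FreeGroup.reduce.red).2.symm

theorem chn_mul (k : Fin d) (x y : FreeGroup (Fin d)) :
    chn k (x * y) = chn k x + mon (abf x) * chn k y := by
  rw [← FreeGroup.mk_toWord (x := x), ← FreeGroup.mk_toWord (x := y), FreeGroup.mul_mk, chn_mk,
    chn_mk, chn_mk, abf_mk, fx_append]

theorem abf_mul (x y : FreeGroup (Fin d)) : abf (x * y) = abf x + abf y := by
  rw [← FreeGroup.mk_toWord (x := x), ← FreeGroup.mk_toWord (x := y), FreeGroup.mul_mk, abf_mk,
    abf_mk, abf_mk, abl_append]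

theorem chn_one (k : Fin d) : chn k (1 : FreeGroup (Fin d)) = 0 := by
  rw [FreeGroup.one_eq_mk, chn_mk, fx]

theorem abf_one : abf (1 : FreeGroup (Fin d)) = 0 := by
  rw [FreeGroup.one_eq_mk, abf_mk, abl]

theorem chn_of (k a : Fin d) : chn k (FreeGroup.of a) = if a = k then 1 else 0 := by
  unfold FreeGroup.of
  rw [chn_mk, fx, fx]
  simp

theorem abf_of (a : Fin d) : abf (FreeGroup.of a) = ev a := by
  unfold FreeGroup.of
  rw [abf_mk, abl, abl, add_zero]

theorem abf_inv (x : FreeGroup (Fin d)) : abf x⁻¹ = -abf x := by
  have h := abf_mul x⁻¹ x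
  rw [inv_mul_cancel, abf_one] at h
  exact eq_neg_of_add_eq_zero_left h.symm

theorem chn_inv (k : Fin d) (x : FreeGroup (Fin d)) :
    chn k x⁻¹ = -(mon (-abf x) * chn k x) := by
  have h := chn_mul k x⁻¹ x
  rw [inv_mul_cancel, chn_one, abf_inv] at h
  exact eq_neg_of_add_eq_zero_left h.symm

/-- the chain has at most as many edges as the path -/
theorem sum_nrm_fx (w : List (Fin d × Bool)) : ∑ k, nrm (fx k w) ≤ w.length := by
  classical
  induction w with
  | nil => simp [fx, nrm_zero]
  | cons x w ih =>
    obtain ⟨a, b⟩ := x
    have h1 : ∀ k, nrm (fx k ((a, b) :: w)) ≤ (if a = k then 1 else 0) + nrm (fx k w) := by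
      intro k
      cases b
      · rw [fx]
        refine (nrm_mon_mul _ _).trans ((nrm_sub _ _).trans ?_)
        rw [add_comm]
        refine Nat.add_le_add_right ?_ _
        split_ifs
        · rw [nrm_one]
        · rw [nrm_zero]
      · rw [fx]
        refine (nrm_add _ _).trans (Nat.add_le_add ?_ (nrm_mon_mul _ _))
        split_ifs
        · rw [nrm_one]
        · rw [nrm_zero]
    refine (Finset.sum_le_sum fun k _ => h1 k).trans ?_
    rw [Finset.sum_add_distrib, Finset.sum_ite_eq Finset.univ a, if_pos (Finset.mem_univ a),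
      List.length_cons]
    omega

theorem sum_nrm_chn (x : FreeGroup (Fin d)) : ∑ k, nrm (chn k x) ≤ x.norm :=
  sum_nrm_fx x.toWord

/-- the element of the free group given by a word -/
def wd (w : List (Fin d)) : FreeGroup (Fin d) := (w.map FreeGroup.of).prod

theorem wd_cons (a : Fin d) (w : List (Fin d)) : wd (a :: w) = FreeGroup.of a * wd w := by
  unfold wd
  rw [List.map_cons, List.prod_cons]

theorem wd_append (u v : List (Fin d)) : wd (u ++ v) = wd u * wd v := by
  unfold wd
  rw [List.map_append, List.prod_append]

theorem chn_wd (k : Fin d) (w : List (Fin d)) : chn k (wd w) = pth k w := by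
  induction w with
  | nil => exact chn_one k
  | cons a w ih => rw [wd_cons, chn_mul, chn_of, abf_of, ih, pth]

theorem abf_wd (w : List (Fin d)) : abf (wd w) = ab w := by
  induction w with
  | nil => rw [ab_nil]; exact abf_one
  | cons a w ih => rw [wd_cons, abf_mul, abf_of, ih, ab_cons]

/-- the endomorphism of the free group given by a substitution -/
def endo (S : Fin d → List (Fin d)) : FreeGroup (Fin d) →* FreeGroup (Fin d) :=
  FreeGroup.lift fun a => wd (S a)

theorem endo_of (S : Fin d → List (Fin d)) (a : Fin d) :
    endo S (FreeGroup.of a) = wd (S a) := by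
  unfold endo
  rw [FreeGroup.lift_apply_of]

theorem endo_wd (S : Fin d → List (Fin d)) (w : List (Fin d)) :
    endo S (wd w) = wd (ext S w) := by
  induction w with
  | nil => simp [wd, ext]
  | cons a w ih => rw [wd_cons, map_mul, endo_of, ih, ext_cons, wd_append]

/-- the linear map of the exponents given by a substitution -/
def lin (S : Fin d → List (Fin d)) : (Fin d → ℤ) →+ (Fin d → ℤ) where
  toFun v := (inc S).mulVec v
  map_zero' := Matrix.mulVec_zero _
  map_add' v w := Matrix.mulVec_add _ v w

theorem lin_apply (S : Fin d → List (Fin d)) (v : Fin d → ℤ) : lin S v = (inc S).mulVec v := rfl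

theorem lin_ev (S : Fin d → List (Fin d)) (a : Fin d) : lin S (ev a) = ab (S a) := by
  rw [lin_apply, ab_subst]

theorem abf_endo_mk (S : Fin d → List (Fin d)) (L : List (Fin d × Bool)) :
    abf (endo S (FreeGroup.mk L)) = lin S (abl L) := by
  induction L with
  | nil => rw [← FreeGroup.one_eq_mk, map_one, abf_one, abl, map_zero]
  | cons x L ih =>
    obtain ⟨a, b⟩ := x
    cases b
    · have h1 : FreeGroup.mk ((a, false) :: L) = (FreeGroup.of a)⁻¹ * FreeGroup.mk L := by
        rw [FreeGroup.of, FreeGroup.inv_mk, FreeGroup.mul_mk]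
        rfl
      rw [h1, map_mul, map_inv, abf_mul, abf_inv, endo_of, abf_wd, ih, abl, map_add, map_neg,
        lin_ev]
    · have h1 : FreeGroup.mk ((a, true) :: L) = FreeGroup.of a * FreeGroup.mk L := by
        rw [FreeGroup.of, FreeGroup.mul_mk]
        rfl
      rw [h1, map_mul, abf_mul, endo_of, abf_wd, ih, abl, map_add, lin_ev]

/-- the chain rule -/
theorem chn_endo_mk (S : Fin d → List (Fin d)) (k : Fin d) (L : List (Fin d × Bool)) :
    chn k (endo S (FreeGroup.mk L)) = ∑ l, fox S k l * push (lin S) (fx l L) := by
  induction L with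
  | nil =>
    rw [← FreeGroup.one_eq_mk, map_one, chn_one]
    simp [fx]
  | cons x L ih =>
    obtain ⟨a, b⟩ := x
    cases b
    · have h1 : FreeGroup.mk ((a, false) :: L) = (FreeGroup.of a)⁻¹ * FreeGroup.mk L := by
        rw [FreeGroup.of, FreeGroup.inv_mk, FreeGroup.mul_mk]
        rfl
      rw [h1, map_mul, map_inv, chn_mul, chn_inv, abf_inv, endo_of, abf_wd, chn_wd, ih]
      have h2 : ∀ l, fox S k l * push (lin S) (fx l ((a, false) :: L)) =
          mon (-ab (S a)) * (fox S k l * push (lin S) (fx l L)) -
            (if a = l then mon (-ab (S a)) * fox S k l else 0) := by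
        intro l
        rw [fx, map_mul, map_sub, push_mon, map_neg, lin_ev]
        split_ifs
        · rw [map_one]
          ring
        · rw [map_zero]
          ring
      rw [Finset.sum_congr rfl fun l _ => h2 l, Finset.sum_sub_distrib, ← Finset.mul_sum,
        Finset.sum_ite_eq Finset.univ a, if_pos (Finset.mem_univ a)]
      unfold fox
      ring
    · have h1 : FreeGroup.mk ((a, true) :: L) = FreeGroup.of a * FreeGroup.mk L := by
        rw [FreeGroup.of, FreeGroup.mul_mk]
        rfl
      rw [h1, map_mul, chn_mul, endo_of, abf_wd, chn_wd, ih]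
      have h2 : ∀ l, fox S k l * push (lin S) (fx l ((a, true) :: L)) =
          (if a = l then fox S k l else 0) +
            mon (ab (S a)) * (fox S k l * push (lin S) (fx l L)) := by
        intro l
        rw [fx, map_add, map_mul, push_mon, lin_ev]
        split_ifs
        · rw [map_one]
          ring
        · rw [map_zero]
          ring
      rw [Finset.sum_congr rfl fun l _ => h2 l, Finset.sum_add_distrib, ← Finset.mul_sum,
        Finset.sum_ite_eq Finset.univ a, if_pos (Finset.mem_univ a)]
      unfold fox
      rfl

theorem chn_endo (S : Fin d → List (Fin d)) (k : Fin d) (x : FreeGroup (Fin d)) :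
    chn k (endo S x) = ∑ l, fox S k l * push (lin S) (chn l x) := by
  have h := chn_endo_mk S k x.toWord
  rw [FreeGroup.mk_toWord] at h
  exact h

/-- preimages of the letters give the inverse of the matrix of the paths -/
theorem fox_inv (S : Fin d → List (Fin d)) (x : Fin d → FreeGroup (Fin d))
    (hx : ∀ a, endo S (x a) = FreeGroup.of a) :
    fox S * Matrix.of (fun l a => push (lin S) (chn l (x a))) = 1 := by
  ext1 k a
  rw [Matrix.mul_apply]
  simp only [Matrix.of_apply]
  have h := chn_endo S k (x a)
  rw [hx, chn_of] at h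
  rw [← h, Matrix.one_apply]
  by_cases hka : k = a
  · rw [if_pos hka, if_pos hka.symm]
  · rw [if_neg hka, if_neg fun h => hka h.symm]

/-- the chain rule for words -/
theorem pth_ext (S : Fin d → List (Fin d)) (k : Fin d) (w : List (Fin d)) :
    pth k (ext S w) = ∑ l, fox S k l * push (lin S) (pth l w) := by
  rw [← chn_wd, ← endo_wd, chn_endo]
  exact Finset.sum_congr rfl fun l _ => by rw [chn_wd]

theorem fox_comp (S T : Fin d → List (Fin d)) :
    fox (comp S T) = fox S * (fox T).map (push (lin S)) := by
  ext1 k j
  rw [Matrix.mul_apply]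
  exact pth_ext S k (T j)

end Pool.Agent.Helper65.PF
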