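import Pool.Agent.Helper65.PF.Free
import Pool.Graph.R_pool_sql_team_seeded_3997aac3.Q132.PT.All

/-!
The growth of the inverse and the Pisot substitution conjecture.
-/

set_option autoImplicit false

namespace Pool.Agent.Helper65.PF
open Pool.Agent.H812R2.PI Pool.Agent.Q132.PT
open scoped BigOperators

/-- the root of the characteristic polynomial outside the unit disc is the Perron root -/
theorem lam_eq {d : ℕ} {M : Matrix (Fin d) (Fin d) ℤ} (hM : PisotMat M) (P : PD M) (lam : ℝ)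
    (hlam : 1 < lam) (hroot : (M.map (Int.cast : ℤ → ℂ)).charpoly.IsRoot (lam : ℂ)) :
    lam = P.lam := by
  obtain ⟨-, -, r, hr1, -, hr⟩ := hM
  have key : ∀ x : ℝ, 1 < x → (M.map (Int.cast : ℤ → ℂ)).charpoly.IsRoot (x : ℂ) → x = r := by
    intro x hx hroot
    by_contra hne
    have h1 := (hr (x : ℂ) hroot (by exact_mod_cast hne)).2
    rw [Complex.norm_real, Real.norm_eq_abs, abs_of_pos (by linarith)] at h1
    linarith
  have hP : (M.map (Int.cast : ℤ → ℂ)).charpoly.IsRoot (P.lam : ℂ) := by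
    rw [Polynomial.IsRoot.def, Matrix.eval_charpoly]
    refine Matrix.exists_mulVec_eq_zero_iff.1 ⟨fun i => (P.u i : ℂ), ?_, ?_⟩
    · intro h
      have hs := P.u_sum
      have h0 : ∀ i, P.u i = 0 := fun i => by
        have h1 : (P.u i : ℂ) = 0 := congrFun h i
        exact_mod_cast h1
      rw [Finset.sum_eq_zero fun i _ => h0 i] at hs
      exact zero_ne_one hs
    · rw [Matrix.sub_mulVec]
      funext i
      have h1 := P.M_u i
      have h2 : ((M.map (Int.cast : ℤ → ℂ)).mulVec fun i => (P.u i : ℂ)) i =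
          (P.lam : ℂ) * (P.u i : ℂ) := by
        rw [← Complex.ofReal_mul, ← h1]
        simp [Matrix.mulVec, dotProduct]
      rw [Pi.sub_apply, h2]
      simp
  rw [key lam hlam hroot, key P.lam P.lam_gt hP]

/-- inverse matrices of the powers -/
theorem inv_iter {d : ℕ} (S : Fin d → List (Fin d)) (B : Matrix (Fin d) (Fin d) (Lau d))
    (hB : fox S * B = 1) (K : ℕ) (hK : ∀ c, ∑ r, nrm (B r c) ≤ K) (n : ℕ) :
    ∃ C : Matrix (Fin d) (Fin d) (Lau d), fox (iter S n) * C = 1 ∧
      ∀ c, ∑ r, nrm (C r c) ≤ K ^ n := by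
  classical
  induction n with
  | zero =>
    refine ⟨1, ?_, fun c => ?_⟩
    · rw [mul_one]
      ext1 k j
      have h1 : fox (iter S 0) k j = if j = k then 1 else 0 := by
        simp [fox, iter_zero, pth]
      rw [h1, Matrix.one_apply]
      by_cases h : k = j
      · rw [if_pos h, if_pos h.symm]
      · rw [if_neg h, if_neg fun h' => h h'.symm]
    · rw [pow_zero, Finset.sum_eq_single c]
      · rw [Matrix.one_apply_eq, nrm_one]
      · intro r _ hr
        rw [Matrix.one_apply_ne hr, nrm_zero]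
      · intro h
        exact absurd (Finset.mem_univ c) h
  | succ n ih =>
    obtain ⟨C, hC, hCK⟩ := ih
    have h1 : iter S (n+1) = comp S (iter S n) := by
      funext a
      exact iter_succ S n a
    refine ⟨C.map (push (lin S)) * B, ?_, fun c => ?_⟩
    · rw [h1, fox_comp, Matrix.mul_assoc, ← Matrix.mul_assoc ((fox (iter S n)).map _),
        ← Matrix.map_mul, hC]
      have h2 : (1 : Matrix (Fin d) (Fin d) (Lau d)).map (push (lin S)) = 1 :=
        Matrix.map_one _ (map_zero _) (map_one _)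
      rw [h2, one_mul, hB]
    · have h2 : ∀ r, nrm ((C.map (push (lin S)) * B) r c) ≤ ∑ l, nrm (C r l) * nrm (B l c) := by
        intro r
        rw [Matrix.mul_apply]
        refine (nrm_sum _ _).trans (Finset.sum_le_sum fun l _ => (nrm_mul _ _).trans ?_)
        rw [Matrix.map_apply]
        exact Nat.mul_le_mul_right _ (nrm_push _ _)
      refine (Finset.sum_le_sum fun r _ => h2 r).trans ?_
      rw [Finset.sum_comm]
      have h3 : ∀ l, ∑ r, nrm (C r l) * nrm (B l c) ≤ K ^ n * nrm (B l c) := by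
        intro l
        rw [← Finset.sum_mul]
        exact Nat.mul_le_mul_right _ (hCK l)
      refine (Finset.sum_le_sum fun l _ => h3 l).trans ?_
      rw [← Finset.mul_sum, pow_succ]
      exact Nat.mul_le_mul_left _ (hK c)

/-- **the criterion** -/
theorem semi_inv {m : ℕ} (σ : Fin (m+2) → List (Fin (m+2))) (hM : PisotMat (inc σ)) (lam : ℝ)
    (hlam : 1 < lam) (hroot : ((inc σ).map (Int.cast : ℤ → ℂ)).charpoly.IsRoot (lam : ℂ))
    (N : ℕ) (hN : 1 ≤ N) (B : Matrix (Fin (m+2)) (Fin (m+2)) (Lau (m+2)))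
    (hB : fox (iter σ N) * B = 1)
    (hK : ∀ c, ((∑ r, nrm (B r c) : ℕ) : ℝ) ^ m < lam ^ N) : SemiConjToral σ := by
  classical
  obtain ⟨P⟩ := Pool.Agent.Q132.PC.exists_PD' (inc σ) (fun i j => by unfold inc; positivity) hM
  have hP := lam_eq hM P lam hlam hroot
  refine Pool.Agent.Y316.Pisot.semi_of_iter P N hN ?_
  obtain ⟨T, hT⟩ : ∃ T, T = iter σ N := ⟨_, rfl⟩
  rw [← hT] at hB ⊢
  have hincT : inc T = (inc σ) ^ N := by rw [hT, inc_iter]
  obtain ⟨Q, hQ⟩ : ∃ Q : PD (inc T), Q.lam = lam ^ N := by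
    rw [hincT, hP]
    exact ⟨P.pow N hN, rfl⟩
  obtain ⟨K, hKd⟩ : ∃ K, K = Finset.univ.sup fun c => ∑ r, nrm (B r c) := ⟨_, rfl⟩
  have hKc : ∀ c, ∑ r, nrm (B r c) ≤ K := by
    intro c
    rw [hKd]
    exact Finset.le_sup (f := fun c => ∑ r, nrm (B r c)) (Finset.mem_univ c)
  have hKm : (K : ℝ) ^ m < Q.lam := by
    obtain ⟨c, -, hc⟩ := Finset.exists_mem_eq_sup (Finset.univ : Finset (Fin (m+2)))
      Finset.univ_nonempty fun c => ∑ r, nrm (B r c)
    rw [hQ, hKd, hc]
    exact hK c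
  have hdet : IsUnit (inc T).det := by
    rw [hincT, Matrix.det_pow]
    refine IsUnit.pow _ ?_
    rcases hM.2.1 with h | h <;> rw [h]
    · exact isUnit_one
    · exact isUnit_one.neg
  refine semi_of_small Q hdet fun ε hε => ?_
  have hcost : ∀ n i j, (cst (iter T n) i j : ℝ) ≤ (2 * (m+2) ^ 2) * ((K : ℝ) ^ m) ^ n := by
    intro n i j
    obtain ⟨C, hC, hCK⟩ := inv_iter T B hB K hKc n
    have h1 := cst_le_inv (iter T n) C hC (K ^ n) hCK i j
    have h2 : (cst (iter T n) i j : ℝ) ≤ ((2 * (m+2) ^ 2 * (K ^ n) ^ m : ℕ) : ℝ) := by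
      exact_mod_cast h1
    refine h2.trans (le_of_eq ?_)
    push_cast
    rw [← pow_mul, ← pow_mul, mul_comm n m]
  obtain ⟨n₀, hn₀⟩ := small_of_geom (C := 2 * ((m : ℝ)+2) ^ 2) Q.lam_gt (by positivity) hKm
    (fun n => (2 * ((m : ℝ)+2) ^ 2) * ((K : ℝ) ^ m) ^ n) (fun n => le_rfl) ε hε
  exact ⟨n₀, fun n hn x y => (hcost n x y).trans (hn₀ n hn)⟩

/-- iterates of the endomorphism -/
theorem endo_iter {d : ℕ} (σ : Fin d → List (Fin d)) (N : ℕ) (x : FreeGroup (Fin d)) :
    endo (iter σ N) x = (endo σ)^[N] x := by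
  induction N generalizing x with
  | zero =>
    have h : endo (iter σ 0) = MonoidHom.id (FreeGroup (Fin d)) := by
      refine FreeGroup.ext_hom _ _ fun a => ?_
      rw [endo_of]
      simp [iter_zero, wd]
    rw [h]
    rfl
  | succ N ih =>
    have h : endo (iter σ (N+1)) = (endo σ).comp (endo (iter σ N)) := by
      refine FreeGroup.ext_hom _ _ fun a => ?_
      rw [MonoidHom.comp_apply, endo_of, endo_of, endo_wd, iter_succ]
    rw [h, MonoidHom.comp_apply, ih, Function.iterate_succ_apply']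

/-- **the inverse automorphism** -/
theorem semi_aut {m : ℕ} (σ : Fin (m+2) → List (Fin (m+2))) (hM : PisotMat (inc σ)) (lam : ℝ)
    (hlam : 1 < lam) (hroot : ((inc σ).map (Int.cast : ℤ → ℂ)).charpoly.IsRoot (lam : ℂ))
    (φ : FreeGroup (Fin (m+2)) ≃* FreeGroup (Fin (m+2)))
    (hφ : ∀ a, φ (FreeGroup.of a) = ((σ a).map FreeGroup.of).prod)
    (N : ℕ) (hN : 1 ≤ N)
    (h : ∀ a, ((∑ k, nrm (chn k (φ.symm^[N] (FreeGroup.of a))) : ℕ) : ℝ) ^ m < lam ^ N) :
    SemiConjToral σ := by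
  have hφσ : ∀ x, φ x = endo σ x := by
    have h1 : φ.toMonoidHom = endo σ := by
      refine FreeGroup.ext_hom _ _ fun a => ?_
      rw [endo_of]
      exact hφ a
    intro x
    rw [← h1]
    rfl
  have hx : ∀ a, endo (iter σ N) (φ.symm^[N] (FreeGroup.of a)) = FreeGroup.of a := by
    intro a
    rw [endo_iter]
    have h2 : (endo σ : FreeGroup (Fin (m+2)) → FreeGroup (Fin (m+2))) = φ :=
      funext fun x => (hφσ x).symm
    rw [h2]
    exact (Function.LeftInverse.iterate (f := φ.symm) (g := φ) φ.apply_symm_apply N) _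
  refine semi_inv σ hM lam hlam hroot N hN _ (fox_inv (iter σ N) _ hx) fun c => ?_
  refine lt_of_le_of_lt ?_ (h c)
  refine pow_le_pow_left₀ (Nat.cast_nonneg _) ?_ m
  rw [Nat.cast_le]
  exact Finset.sum_le_sum fun r _ => nrm_push _ _

end Pool.Agent.Helper65.PF
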