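import Pool.Agent.Helper65.PF.Conv

/-!
Substitutions which respect an orientation of the pairs of letters.
-/

set_option autoImplicit false

namespace Pool.Agent.Helper65.PF
open Pool.Agent.H812R2.PI Pool.Agent.Q132.PT Pool.Agent.Q132.PC
open scoped BigOperators
variable {d : ℕ}

/-- `Up R u v`: the word `v` is obtained from the word `u` by replacing successively two adjacent
letters `a b` with `R a b` by `b a`. -/
inductive Up {d : ℕ} (R : Fin d → Fin d → Prop) : List (Fin d) → List (Fin d) → Prop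
  | refl (u : List (Fin d)) : Up R u u
  | step {u : List (Fin d)} (p s : List (Fin d)) (a b : Fin d) :
      R a b → Up R u (p ++ a :: b :: s) → Up R u (p ++ b :: a :: s)

/-- `σ a σ b` can be changed to `σ b σ a` by transpositions in the direction of `R` if `R a b` -/
def MonoS {d : ℕ} (R : Fin d → Fin d → Prop) (σ : Fin d → List (Fin d)) : Prop :=
  ∀ a b, R a b → Up R (σ a ++ σ b) (σ b ++ σ a)

/-- `σ b σ a` can be changed to `σ a σ b` by transpositions in the direction of `R` if `R a b` -/
def AntiS {d : ℕ} (R : Fin d → Fin d → Prop) (σ : Fin d → List (Fin d)) : Prop :=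
  ∀ a b, R a b → Up R (σ b ++ σ a) (σ a ++ σ b)

variable {R : Fin d → Fin d → Prop}

theorem Up.trans {u v w : List (Fin d)} (h : Up R u v) (h' : Up R v w) : Up R u w := by
  induction h' with
  | refl => exact h
  | step p s a b hab _ ih => exact Up.step p s a b hab ih

theorem Up.append_left {u v : List (Fin d)} (q : List (Fin d)) (h : Up R u v) :
    Up R (q ++ u) (q ++ v) := by
  induction h with
  | refl => exact Up.refl _
  | step p s a b hab _ ih =>
    rw [← List.append_assoc] at ih ⊢
    exact Up.step (q ++ p) s a b hab ih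

theorem Up.append_right {u v : List (Fin d)} (q : List (Fin d)) (h : Up R u v) :
    Up R (u ++ q) (v ++ q) := by
  induction h with
  | refl => exact Up.refl _
  | step p s a b hab _ ih =>
    rw [List.append_assoc, List.cons_append, List.cons_append] at ih ⊢
    exact Up.step p (s ++ q) a b hab ih

theorem Up.ext_mono {σ : Fin d → List (Fin d)} (hσ : MonoS R σ) {u v : List (Fin d)}
    (h : Up R u v) : Up R (ext σ u) (ext σ v) := by
  induction h with
  | refl => exact Up.refl _
  | step p s a b hab _ ih =>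
    refine ih.trans ?_
    rw [ext_append, ext_append, ext_cons, ext_cons, ext_cons, ext_cons, ← List.append_assoc (σ a),
      ← List.append_assoc (σ b)]
    exact Up.append_left _ (Up.append_right _ (hσ a b hab))

theorem Up.ext_anti {σ : Fin d → List (Fin d)} (hσ : AntiS R σ) {u v : List (Fin d)}
    (h : Up R u v) : Up R (ext σ v) (ext σ u) := by
  induction h with
  | refl => exact Up.refl _
  | step p s a b hab _ ih =>
    refine Up.trans ?_ ih
    rw [ext_append, ext_append, ext_cons, ext_cons, ext_cons, ext_cons, ← List.append_assoc (σ a),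
      ← List.append_assoc (σ b)]
    exact Up.append_left _ (Up.append_right _ (hσ a b hab))

theorem comp_ext (σ τ : Fin d → List (Fin d)) (a b : Fin d) :
    comp σ τ a ++ comp σ τ b = ext σ (τ a ++ τ b) := by
  rw [ext_append]
  rfl

theorem mono_mono {σ τ : Fin d → List (Fin d)} (hσ : MonoS R σ) (hτ : MonoS R τ) :
    MonoS R (comp σ τ) := by
  intro a b hab
  rw [comp_ext, comp_ext]
  exact (hτ a b hab).ext_mono hσ

theorem mono_anti {σ τ : Fin d → List (Fin d)} (hσ : MonoS R σ) (hτ : AntiS R τ) :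
    AntiS R (comp σ τ) := by
  intro a b hab
  rw [comp_ext, comp_ext]
  exact (hτ a b hab).ext_mono hσ

theorem anti_anti {σ τ : Fin d → List (Fin d)} (hσ : AntiS R σ) (hτ : AntiS R τ) :
    MonoS R (comp σ τ) := by
  intro a b hab
  rw [comp_ext, comp_ext]
  exact (hτ a b hab).ext_anti hσ

theorem anti_mono {σ τ : Fin d → List (Fin d)} (hσ : AntiS R σ) (hτ : MonoS R τ) :
    AntiS R (comp σ τ) := by
  intro a b hab
  rw [comp_ext, comp_ext]
  exact (hτ a b hab).ext_anti hσ

theorem monoS_id : MonoS R (fun a : Fin d => [a]) := by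
  intro a b hab
  exact Up.step [] [] a b hab (Up.refl _)

theorem monoS_iter {σ : Fin d → List (Fin d)} (hσ : MonoS R σ) (n : ℕ) :
    MonoS R (iter σ n) := by
  induction n with
  | zero =>
    have h : iter σ 0 = fun a => [a] := by
      funext a
      exact iter_zero σ a
    rw [h]
    exact monoS_id
  | succ n ih =>
    have h1 : iter σ (n+1) = Pool.Agent.H812R2.PI.comp σ (iter σ n) := by
      funext a
      exact iter_succ σ n a
    rw [h1]
    exact mono_mono hσ ih

theorem monoS_iter_anti {σ : Fin d → List (Fin d)} (hσ : AntiS R σ) (n : ℕ) :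
    MonoS R (iter σ (2 * n)) := by
  induction n with
  | zero =>
    have h : iter σ (2 * 0) = fun a => [a] := by
      funext a
      exact iter_zero σ a
    rw [h]
    exact monoS_id
  | succ n ih =>
    have h1 : iter σ (2 * (n+1)) =
        Pool.Agent.H812R2.PI.comp σ (Pool.Agent.H812R2.PI.comp σ (iter σ (2 * n))) := by
      funext a
      have h2 : 2 * (n + 1) = 2 * n + 1 + 1 := by ring
      rw [h2, iter_succ, iter_succ]
      rfl
    rw [h1]
    exact anti_anti hσ (anti_mono hσ ih)

theorem mono_compList {l : List (Fin d → List (Fin d))} (h : ∀ τ ∈ l, MonoS R τ ∨ AntiS R τ) :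
    MonoS R (compList l) ∨ AntiS R (compList l) := by
  induction l with
  | nil => exact Or.inl monoS_id
  | cons τ l ih =>
    have h1 := h τ (List.mem_cons_self ..)
    have h2 := ih fun τ' h' => h τ' (List.mem_cons_of_mem _ h')
    unfold compList
    rcases h1 with h1 | h1 <;> rcases h2 with h2 | h2
    · exact Or.inl (mono_mono h1 h2)
    · exact Or.inr (mono_anti h1 h2)
    · exact Or.inr (anti_mono h1 h2)
    · exact Or.inl (anti_anti h1 h2)

/-! ### counting -/

open Classical in
/-- the number of pairs of positions `p < q` with letters `a`, `b` such that `R a b` -/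
noncomputable def asc {d : ℕ} (R : Fin d → Fin d → Prop) : List (Fin d) → ℤ
  | [] => 0
  | a :: w => (∑ b, if R a b then (w.count b : ℤ) else 0) + asc R w

open Classical in
theorem asc_append (u v : List (Fin d)) :
    asc R (u ++ v) = asc R u + asc R v +
      ∑ a, ∑ b, if R a b then (u.count a : ℤ) * (v.count b : ℤ) else 0 := by
  induction u with
  | nil => simp [asc]
  | cons c u ih =>
    have h1 : ∀ a b, (if R a b then (((c :: u).count a : ℕ) : ℤ) * (v.count b : ℤ) else 0) =
        (if R a b then (u.count a : ℤ) * (v.count b : ℤ) else 0) +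
          (if c = a then (if R a b then (v.count b : ℤ) else 0) else 0) := by
      intro a b
      rw [List.count_cons]
      by_cases hca : c = a
      · subst hca
        split_ifs <;> simp_all
        ring
      · split_ifs <;> simp_all
    have h2 : ∀ a, (∑ b, if c = a then (if R a b then (v.count b : ℤ) else 0) else 0) =
        if c = a then (∑ b, if R a b then (v.count b : ℤ) else 0) else 0 := by
      intro a
      split_ifs
      · rfl
      · simp
    have h3 : ∀ b, (if R c b then (((u ++ v).count b : ℕ) : ℤ) else 0) =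
        (if R c b then (u.count b : ℤ) else 0) + (if R c b then (v.count b : ℤ) else 0) := by
      intro b
      rw [List.count_append]
      split_ifs
      · push_cast
        ring
      · simp
    simp only [List.cons_append, asc, h1, Finset.sum_add_distrib, h2, h3, ih,
      Finset.sum_ite_eq, Finset.mem_univ, if_true]
    ring

theorem asc_swap (p s : List (Fin d)) (a b : Fin d) (hab : R a b) (hba : ¬ R b a) :
    asc R (p ++ a :: b :: s) = asc R (p ++ b :: a :: s) + 1 := by
  classical
  have h1 : a ≠ b := by rintro rfl; exact hba hab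
  have hcount : ∀ k, (a :: b :: s).count k = (b :: a :: s).count k := fun k =>
    (List.Perm.swap b a s).count_eq k
  rw [asc_append, asc_append]
  simp only [hcount]
  have h2 : asc R (a :: b :: s) = asc R (b :: a :: s) + 1 := by
    unfold asc
    unfold asc
    have h3 : ∀ k, (if R a k then (((b :: s).count k : ℕ) : ℤ) else 0) =
        (if R a k then (s.count k : ℤ) else 0) + (if b = k then (if R a k then 1 else 0) else 0) := by
      intro k
      rw [List.count_cons]
      by_cases hbk : b = k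
      · subst hbk
        split_ifs <;> simp_all
      · split_ifs <;> simp_all
    have h4 : ∀ k, (if R b k then (((a :: s).count k : ℕ) : ℤ) else 0) =
        (if R b k then (s.count k : ℤ) else 0) + (if a = k then (if R b k then 1 else 0) else 0) := by
      intro k
      rw [List.count_cons]
      by_cases hak : a = k
      · subst hak
        split_ifs <;> simp_all
      · split_ifs <;> simp_all
    simp only [h3, h4, Finset.sum_add_distrib, Finset.sum_ite_eq, Finset.mem_univ, if_true,
      if_pos hab, if_neg hba]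
    ring
  rw [h2]
  ring

theorem Up.swaps (hR : ∀ a b, R a b → ¬ R b a) {u v : List (Fin d)} (h : Up R u v) :
    ∃ n : ℕ, (n : ℤ) = asc R u - asc R v ∧ Swaps n u v := by
  induction h with
  | refl => exact ⟨0, by simp, Swaps.refl _⟩
  | step p s a b hab _ ih =>
    obtain ⟨n, hn, hs⟩ := ih
    refine ⟨n + 1, ?_, Swaps.step p s a b hs⟩
    rw [asc_swap p s a b hab (hR a b hab)] at hn
    push_cast
    linarith

theorem Swaps.symm {n : ℕ} {u v : List (Fin d)} (h : Swaps n u v) : Swaps n v u := by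
  induction h with
  | refl => exact Swaps.refl _
  | @step n v' p s a b _ ih =>
    have h1 : Swaps 1 (p ++ b :: a :: s) (p ++ a :: b :: s) := Swaps.step p s b a (Swaps.refl _)
    have h2 := h1.trans ih
    rwa [add_comm] at h2

open Classical in
theorem asc_comm (u v : List (Fin d)) :
    asc R (u ++ v) - asc R (v ++ u) =
      ∑ a, ∑ b, if R a b then (u.count a : ℤ) * (v.count b : ℤ) - (v.count a : ℤ) * (u.count b : ℤ)
        else 0 := by
  rw [asc_append, asc_append]
  have h1 : ∀ a b, (if R a b then (u.count a : ℤ) * (v.count b : ℤ) - (v.count a : ℤ) *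
      (u.count b : ℤ) else 0) = (if R a b then (u.count a : ℤ) * (v.count b : ℤ) else 0) -
      (if R a b then (v.count a : ℤ) * (u.count b : ℤ) else 0) := by
    intro a b
    split_ifs
    · rfl
    · simp
  simp only [h1, Finset.sum_sub_distrib]
  ring

/-- the minors of order two of the powers of the incidence matrix are small -/
theorem minor_small {σ : Fin d → List (Fin d)} (P : PD (inc σ)) {ε : ℝ} (hε : 0 < ε) :
    ∃ n₀ : ℕ, ∀ n ≥ n₀, ∀ i j x y : Fin d,
      |(((iter σ n i).count x : ℕ) : ℝ) * (((iter σ n j).count y : ℕ) : ℝ) -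
        (((iter σ n j).count x : ℕ) : ℝ) * (((iter σ n i).count y : ℕ) : ℝ)| ≤ ε * P.lam ^ n := by
  obtain ⟨c₀, C₀, hc₀, hC₀, hlen⟩ := length_iter_bounds P
  obtain ⟨δ, hδ, hδ1, hδ2⟩ : ∃ δ : ℝ, 0 < δ ∧ δ ≤ 1 ∧ (4 * C₀ + 2) * δ ≤ ε := by
    refine ⟨min 1 (ε / (4 * C₀ + 2)), lt_min one_pos (by positivity), min_le_left _ _, ?_⟩
    have h1 := min_le_right 1 (ε / (4 * C₀ + 2))
    calc (4 * C₀ + 2) * min 1 (ε / (4 * C₀ + 2)) ≤ (4 * C₀ + 2) * (ε / (4 * C₀ + 2)) :=
          mul_le_mul_of_nonneg_left h1 (by positivity)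
      _ = ε := by field_simp
  have hsmall : ∀ᶠ n : ℕ in Filter.atTop, ∀ i : Fin d,
      (P.c * P.N (rv (ev i))) * P.rho ^ n ≤ δ := by
    rw [Filter.eventually_all]
    intro i
    obtain ⟨n₀, hn₀⟩ := GGeom_rho P (P.c * P.N (rv (ev i))) δ hδ
    exact Filter.eventually_atTop.2 ⟨n₀, hn₀⟩
  obtain ⟨n₀, hn₀⟩ := Filter.eventually_atTop.1 hsmall
  refine ⟨n₀, fun n hn i j x y => ?_⟩
  have hcnt : ∀ a k, (((iter σ n a).count k : ℕ) : ℝ) =
      (((((inc σ) ^ n).mulVec (ev a)) k : ℤ) : ℝ) := by
    intro a k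
    rw [← inc_iter, ← ab_subst]
    unfold ab
    push_cast
    rfl
  have hL : ∀ a, (∑ k, ((((inc σ) ^ n).mulVec (ev a) k : ℤ) : ℝ)) = ((iter σ n a).length : ℝ) := by
    intro a
    rw [← inc_iter, ← ab_subst]
    exact_mod_cast ab_sum (iter σ n a)
  have hdis : ∀ a k, |(((iter σ n a).count k : ℕ) : ℝ) - ((iter σ n a).length : ℝ) * P.u k| ≤ δ := by
    intro a k
    have h1 := GGeom_pr P (ev a) n k
    rw [hL, ← hcnt] at h1
    exact h1.trans (hn₀ n hn a)
  have hpow : 1 ≤ P.lam ^ n := one_le_pow₀ P.lam_gt.le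
  have hu1 : ∀ k, P.u k ≤ 1 := by
    intro k
    rw [← P.u_sum]
    exact Finset.single_le_sum (f := fun j => P.u j) (fun j _ => (P.u_pos j).le) (Finset.mem_univ k)
  obtain ⟨A, hA⟩ : ∃ A : ℝ, A = ((iter σ n i).length : ℝ) := ⟨_, rfl⟩
  obtain ⟨B, hB⟩ : ∃ B : ℝ, B = ((iter σ n j).length : ℝ) := ⟨_, rfl⟩
  have hA0 : 0 ≤ A := by rw [hA]; positivity
  have hB0 : 0 ≤ B := by rw [hB]; positivity
  have hA1 : A ≤ C₀ * P.lam ^ n := by rw [hA]; exact (hlen n i).2
  have hB1 : B ≤ C₀ * P.lam ^ n := by rw [hB]; exact (hlen n j).2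
  have e1 := hdis i x
  have e2 := hdis j y
  have e3 := hdis j x
  have e4 := hdis i y
  rw [← hA] at e1 e4
  rw [← hB] at e2 e3
  obtain ⟨p, hp⟩ : ∃ p : ℝ, p = (((iter σ n i).count x : ℕ) : ℝ) - A * P.u x := ⟨_, rfl⟩
  obtain ⟨q, hq⟩ : ∃ q : ℝ, q = (((iter σ n j).count y : ℕ) : ℝ) - B * P.u y := ⟨_, rfl⟩
  obtain ⟨r, hr⟩ : ∃ r : ℝ, r = (((iter σ n j).count x : ℕ) : ℝ) - B * P.u x := ⟨_, rfl⟩
  obtain ⟨s, hs⟩ : ∃ s : ℝ, s = (((iter σ n i).count y : ℕ) : ℝ) - A * P.u y := ⟨_, rfl⟩
  rw [← hp] at e1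
  rw [← hq] at e2
  rw [← hr] at e3
  rw [← hs] at e4
  have heq : (((iter σ n i).count x : ℕ) : ℝ) * (((iter σ n j).count y : ℕ) : ℝ) -
      (((iter σ n j).count x : ℕ) : ℝ) * (((iter σ n i).count y : ℕ) : ℝ) =
      A * P.u x * q + B * P.u y * p + p * q - (B * P.u x * s + A * P.u y * r + r * s) := by
    rw [show (((iter σ n i).count x : ℕ) : ℝ) = A * P.u x + p by rw [hp]; ring,
      show (((iter σ n j).count y : ℕ) : ℝ) = B * P.u y + q by rw [hq]; ring,
      show (((iter σ n j).count x : ℕ) : ℝ) = B * P.u x + r by rw [hr]; ring,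
      show (((iter σ n i).count y : ℕ) : ℝ) = A * P.u y + s by rw [hs]; ring]
    ring
  rw [heq]
  have hprod : ∀ (L w t : ℝ), 0 ≤ L → L ≤ C₀ * P.lam ^ n → 0 ≤ w → w ≤ 1 → |t| ≤ δ →
      |L * w * t| ≤ C₀ * P.lam ^ n * δ := by
    intro L w t hL0 hL1 hw0 hw1 ht
    rw [abs_mul, abs_of_nonneg (mul_nonneg hL0 hw0)]
    have h1 : L * w ≤ C₀ * P.lam ^ n := by
      calc L * w ≤ L * 1 := mul_le_mul_of_nonneg_left hw1 hL0
        _ = L := mul_one L
        _ ≤ _ := hL1
    exact mul_le_mul h1 ht (abs_nonneg _) (by positivity)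
  have hsq : ∀ (t t' : ℝ), |t| ≤ δ → |t'| ≤ δ → |t * t'| ≤ δ * P.lam ^ n := by
    intro t t' ht ht'
    rw [abs_mul]
    have h1 : |t| * |t'| ≤ δ * 1 := mul_le_mul ht (ht'.trans hδ1) (abs_nonneg _) hδ.le
    refine h1.trans ?_
    exact mul_le_mul_of_nonneg_left hpow hδ.le
  have t1 := hprod A (P.u x) q hA0 hA1 (P.u_pos x).le (hu1 x) e2
  have t2 := hprod B (P.u y) p hB0 hB1 (P.u_pos y).le (hu1 y) e1
  have t3 := hsq p q e1 e2
  have t4 := hprod B (P.u x) s hB0 hB1 (P.u_pos x).le (hu1 x) e4
  have t5 := hprod A (P.u y) r hA0 hA1 (P.u_pos y).le (hu1 y) e3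
  have t6 := hsq r s e3 e4
  have hfin : (4 * C₀ + 2) * δ * P.lam ^ n ≤ ε * P.lam ^ n :=
    mul_le_mul_of_nonneg_right hδ2 (by positivity)
  rw [abs_le] at t1 t2 t3 t4 t5 t6 ⊢
  constructor <;> nlinarith [t1.1, t1.2, t2.1, t2.2, t3.1, t3.2, t4.1, t4.2, t5.1, t5.2, t6.1, t6.2]

/-- few transpositions for monotone powers -/
theorem mono_swaps (hR : ∀ a b, R a b → ¬ R b a) (hR' : ∀ a b, a ≠ b → R a b ∨ R b a)
    {σ : Fin d → List (Fin d)} (P : PD (inc σ)) :
    ∃ n₀ : ℕ, ∀ n ≥ n₀, MonoS R (iter σ n) → ∀ i j, i ≠ j → ∃ k : ℕ, (k : ℝ) < P.lam ^ n ∧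
      Swaps k (iter σ n i ++ iter σ n j) (iter σ n j ++ iter σ n i) := by
  classical
  obtain ⟨ε, hε, hε1⟩ : ∃ ε : ℝ, 0 < ε ∧ (d : ℝ) ^ 2 * ε < 1 := by
    refine ⟨1 / ((d : ℝ) ^ 2 + 1), by positivity, ?_⟩
    rw [mul_one_div, div_lt_one (by positivity)]
    linarith
  obtain ⟨n₀, hn₀⟩ := minor_small P hε
  refine ⟨n₀, fun n hn hmono => ?_⟩
  have key : ∀ i j, R i j → ∃ k : ℕ, (k : ℝ) < P.lam ^ n ∧
      Swaps k (iter σ n i ++ iter σ n j) (iter σ n j ++ iter σ n i) := by
    intro i j hij
    obtain ⟨k, hk, hs⟩ := (hmono i j hij).swaps hR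
    refine ⟨k, ?_, hs⟩
    rw [asc_comm] at hk
    have h1 : (k : ℝ) = ∑ a, ∑ b, if R a b then
        (((iter σ n i).count a : ℕ) : ℝ) * (((iter σ n j).count b : ℕ) : ℝ) -
        (((iter σ n j).count a : ℕ) : ℝ) * (((iter σ n i).count b : ℕ) : ℝ) else 0 := by
      exact_mod_cast hk
    have h2 : (k : ℝ) ≤ ∑ _a : Fin d, ∑ _b : Fin d, ε * P.lam ^ n := by
      rw [h1]
      refine Finset.sum_le_sum fun a _ => Finset.sum_le_sum fun b _ => ?_
      split_ifs
      · exact (le_abs_self _).trans (hn₀ n hn i j a b)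
      · have := P.lam_gt
        positivity
    simp only [Finset.sum_const, Finset.card_univ, Fintype.card_fin, nsmul_eq_mul] at h2
    have h3 : 0 < P.lam ^ n := pow_pos (by linarith [P.lam_gt]) n
    have h4 : (d : ℝ) * ((d : ℝ) * (ε * P.lam ^ n)) = (d : ℝ) ^ 2 * ε * P.lam ^ n := by ring
    rw [h4] at h2
    nlinarith
  intro i j hij
  rcases hR' i j hij with h | h
  · exact key i j h
  · obtain ⟨k, hk, hs⟩ := key j i h
    exact ⟨k, hk, hs.symm⟩

/-- **monotone and antitone substitutions** -/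
theorem semi_mono {m : ℕ} {R : Fin (m+1) → Fin (m+1) → Prop} (hR : ∀ a b, R a b → ¬ R b a)
    (hR' : ∀ a b, a ≠ b → R a b ∨ R b a) (σ : Fin (m+1) → List (Fin (m+1)))
    (h : MonoS R σ ∨ AntiS R σ) (hM : PisotMat (inc σ)) : SemiConjToral σ := by
  obtain ⟨P⟩ := Pool.Agent.Q132.PC.exists_PD' (inc σ) (fun i j => by unfold inc; positivity) hM
  have hM' := hM
  obtain ⟨-, -, r, hr1, hroot, -⟩ := hM'
  have hP := lam_eq hM P r hr1 hroot
  obtain ⟨n₀, hn₀⟩ := mono_swaps hR hR' P
  rw [← hP] at hn₀
  rcases h with h | h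
  · exact semi_of_swaps σ hM r hr1 hroot (max n₀ 1) (le_max_right _ _)
      (hn₀ _ (le_max_left _ _) (monoS_iter h _))
  · exact semi_of_swaps σ hM r hr1 hroot (2 * max n₀ 1)
      (by have := le_max_right n₀ 1; omega)
      (hn₀ _ (by have := le_max_left n₀ 1; omega) (monoS_iter_anti h _))

/-- `j ↦ i j` and `j ↦ j i` for neighbours `i`, `j` respect the order of the letters -/
theorem monoS_elem (i j : Fin d) (hij : (i : ℕ) = j + 1 ∨ (j : ℕ) = i + 1) (w : List (Fin d))
    (hw : w = [i, j] ∨ w = [j, i]) :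
    MonoS (· < ·) (Function.update (fun a : Fin d => [a]) j w) := by
  have hne : i ≠ j := by
    rintro rfl
    omega
  intro a b hab
  have hab' : (a : ℕ) < b := hab
  by_cases ha : a = j
  · subst ha
    have hb : b ≠ a := by rintro rfl; omega
    rw [Function.update_self, Function.update_of_ne hb]
    by_cases hbi : b = i
    · subst hbi
      rcases hw with rfl | rfl
      · exact Up.step [b] [] a b hab (Up.refl _)
      · exact Up.step [] [b] a b hab (Up.refl _)
    · have hib : i < b := by
        rw [Fin.lt_def]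
        have : (b : ℕ) ≠ i := fun h => hbi (Fin.ext h)
        omega
      rcases hw with rfl | rfl
      · exact Up.step [] [a] i b hib (Up.step [i] [] a b hab (Up.refl _))
      · exact Up.step [] [i] a b hab (Up.step [a] [] i b hib (Up.refl _))
  · by_cases hb : b = j
    · subst hb
      rw [Function.update_self, Function.update_of_ne ha]
      by_cases hai : a = i
      · subst hai
        rcases hw with rfl | rfl
        · exact Up.step [a] [] a b hab (Up.refl _)
        · exact Up.step [] [a] a b hab (Up.refl _)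
      · have hai' : a < i := by
          rw [Fin.lt_def]
          have : (a : ℕ) ≠ i := fun h => hai (Fin.ext h)
          omega
        rcases hw with rfl | rfl
        · exact Up.step [i] [] a b hab (Up.step [] [b] a i hai' (Up.refl _))
        · exact Up.step [b] [] a i hai' (Up.step [] [i] a b hab (Up.refl _))
    · rw [Function.update_of_ne ha, Function.update_of_ne hb]
      exact Up.step [] [] a b hab (Up.refl _)

/-- the reversal of the order of the letters -/
theorem antiS_rev : AntiS (· < ·) (fun a : Fin d => [Fin.rev a]) := by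
  intro a b hab
  have h : Fin.rev b < Fin.rev a := Fin.rev_lt_rev.2 hab
  exact Up.step [] [] _ _ h (Up.refl _)

end Pool.Agent.Helper65.PF
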