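import Mathlib

/-!
The sum of the absolute values of the coefficients of a Laurent polynomial.
-/

set_option autoImplicit false

namespace Pool.Agent.Helper65.PF
open scoped BigOperators

/-- Laurent polynomials with integer coefficients in `d` variables: the group ring of `ℤ^d` -/
abbrev Lau (d : ℕ) : Type := AddMonoidAlgebra ℤ (Fin d → ℤ)

variable {d : ℕ}

/-- the monomial with exponent `v` -/
noncomputable def mon (v : Fin d → ℤ) : Lau d := AddMonoidAlgebra.single v 1

/-- the sum of the absolute values of the coefficients -/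
noncomputable def nrm (f : Lau d) : ℕ := ∑ v ∈ f.coeff.support, (f.coeff v).natAbs

theorem nrm_eq (f : Lau d) (s : Finset (Fin d → ℤ)) (h : f.coeff.support ⊆ s) :
    nrm f = ∑ v ∈ s, (f.coeff v).natAbs := by
  unfold nrm
  refine Finset.sum_subset h fun v _ hv => ?_
  rw [Finsupp.notMem_support_iff.1 hv]
  rfl

theorem nrm_zero : nrm (0 : Lau d) = 0 := by
  unfold nrm
  simp

theorem nrm_add (f g : Lau d) : nrm (f + g) ≤ nrm f + nrm g := by
  classical
  obtain ⟨s, hs⟩ : ∃ s, s = f.coeff.support ∪ g.coeff.support := ⟨_, rfl⟩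
  have hf : f.coeff.support ⊆ s := by rw [hs]; exact Finset.subset_union_left
  have hg : g.coeff.support ⊆ s := by rw [hs]; exact Finset.subset_union_right
  have hfg : (f + g).coeff.support ⊆ s := by
    rw [hs, AddMonoidAlgebra.coeff_add]
    exact Finsupp.support_add
  rw [nrm_eq f s hf, nrm_eq g s hg, nrm_eq (f + g) s hfg, ← Finset.sum_add_distrib]
  refine Finset.sum_le_sum fun v _ => ?_
  rw [AddMonoidAlgebra.coeff_add, Finsupp.add_apply]
  exact Int.natAbs_add_le _ _

theorem nrm_neg (f : Lau d) : nrm (-f) = nrm f := by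
  unfold nrm
  rw [AddMonoidAlgebra.coeff_neg, Finsupp.support_neg]
  refine Finset.sum_congr rfl fun v _ => ?_
  rw [Finsupp.neg_apply, Int.natAbs_neg]

theorem nrm_sub (f g : Lau d) : nrm (f - g) ≤ nrm f + nrm g := by
  rw [sub_eq_add_neg]
  exact (nrm_add f (-g)).trans (by rw [nrm_neg])

theorem nrm_sum {ι : Type*} (s : Finset ι) (f : ι → Lau d) :
    nrm (∑ i ∈ s, f i) ≤ ∑ i ∈ s, nrm (f i) := by
  classical
  induction s using Finset.induction_on with
  | empty => simp [nrm_zero]
  | insert a s ha ih =>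
    rw [Finset.sum_insert ha, Finset.sum_insert ha]
    exact (nrm_add _ _).trans (Nat.add_le_add_left ih _)

theorem nrm_single (v : Fin d → ℤ) (c : ℤ) :
    nrm (AddMonoidAlgebra.single v c : Lau d) = c.natAbs := by
  classical
  rw [nrm_eq _ {v} (by rw [AddMonoidAlgebra.coeff_single]; exact Finsupp.support_single_subset)]
  simp

theorem nrm_mon (v : Fin d → ℤ) : nrm (mon v) = 1 := nrm_single v 1

theorem nrm_one : nrm (1 : Lau d) = 1 := by
  rw [AddMonoidAlgebra.one_def]
  exact nrm_single 0 1

theorem nrm_single_mul (v : Fin d → ℤ) (c : ℤ) (g : Lau d) :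
    nrm (AddMonoidAlgebra.single v c * g) ≤ c.natAbs * nrm g := by
  conv_lhs => rw [← AddMonoidAlgebra.sum_coeff_single g]
  unfold Finsupp.sum
  rw [Finset.mul_sum]
  refine (nrm_sum _ _).trans ?_
  unfold nrm
  rw [Finset.mul_sum]
  refine Finset.sum_le_sum fun w _ => ?_
  have h := nrm_single (v + w) (c * g.coeff w)
  rw [AddMonoidAlgebra.single_mul_single]
  unfold nrm at h
  rw [h, Int.natAbs_mul]

theorem nrm_mul (f g : Lau d) : nrm (f * g) ≤ nrm f * nrm g := by
  conv_lhs => rw [← AddMonoidAlgebra.sum_coeff_single f]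
  unfold Finsupp.sum
  rw [Finset.sum_mul]
  refine (nrm_sum _ _).trans ?_
  conv_rhs => rw [nrm]
  rw [Finset.sum_mul]
  exact Finset.sum_le_sum fun w _ => nrm_single_mul w _ g

theorem nrm_prod {ι : Type*} (s : Finset ι) (f : ι → Lau d) :
    nrm (∏ i ∈ s, f i) ≤ ∏ i ∈ s, nrm (f i) := by
  classical
  induction s using Finset.induction_on with
  | empty => simp [nrm_one]
  | insert a s ha ih =>
    rw [Finset.prod_insert ha, Finset.prod_insert ha]
    exact (nrm_mul _ _).trans (Nat.mul_le_mul_left _ ih)

/-- the monomial substitution given by an additive map of the exponents -/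
noncomputable def push (N : (Fin d → ℤ) →+ (Fin d → ℤ)) : Lau d →+* Lau d :=
  AddMonoidAlgebra.mapDomainRingHom ℤ N

theorem push_single (N : (Fin d → ℤ) →+ (Fin d → ℤ)) (v : Fin d → ℤ) (c : ℤ) :
    push N (AddMonoidAlgebra.single v c) = AddMonoidAlgebra.single (N v) c := by
  simp [push]

theorem push_mon (N : (Fin d → ℤ) →+ (Fin d → ℤ)) (v : Fin d → ℤ) :
    push N (mon v) = mon (N v) := push_single N v 1

theorem nrm_push (N : (Fin d → ℤ) →+ (Fin d → ℤ)) (f : Lau d) : nrm (push N f) ≤ nrm f := by
  conv_lhs => rw [← AddMonoidAlgebra.sum_coeff_single f]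
  unfold Finsupp.sum
  rw [map_sum]
  refine (nrm_sum _ _).trans ?_
  conv_rhs => rw [nrm]
  refine Finset.sum_le_sum fun w _ => ?_
  rw [push_single, nrm_single]

theorem mon_zero : mon (0 : Fin d → ℤ) = 1 := rfl

theorem mon_add (v w : Fin d → ℤ) : mon (v + w) = mon v * mon w := by
  unfold mon
  rw [AddMonoidAlgebra.single_mul_single, one_mul]

theorem nrm_mon_mul (v : Fin d → ℤ) (f : Lau d) : nrm (mon v * f) ≤ nrm f := by
  refine (nrm_mul _ _).trans ?_
  rw [nrm_mon, one_mul]

/-- the number of exponents is at most the norm -/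
theorem card_le_nrm (f : Lau d) (s : Finset (Fin d → ℤ)) (h : ∀ v ∈ s, f.coeff v ≠ 0) :
    s.card ≤ nrm f := by
  classical
  have hs : s ⊆ f.coeff.support := fun v hv => Finsupp.mem_support_iff.2 (h v hv)
  refine (Finset.card_le_card hs).trans ?_
  unfold nrm
  rw [Finset.card_eq_sum_ones]
  refine Finset.sum_le_sum fun v hv => ?_
  exact Int.natAbs_pos.2 (Finsupp.mem_support_iff.1 hv)

/-- the units are monomials up to sign -/
theorem nrm_unit {f g : Lau d} (h : f * g = 1) : nrm f = 1 := by
  classical
  have hf0 : f ≠ 0 := by rintro rfl; rw [zero_mul] at h; exact zero_ne_one h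
  have hg0 : g ≠ 0 := by rintro rfl; rw [mul_zero] at h; exact zero_ne_one h
  have hA : f.coeff.support.Nonempty := by
    rw [Finsupp.support_nonempty_iff]
    exact fun h => hf0 (AddMonoidAlgebra.coeff_eq_zero.1 h)
  have hB : g.coeff.support.Nonempty := by
    rw [Finsupp.support_nonempty_iff]
    exact fun h => hg0 (AddMonoidAlgebra.coeff_eq_zero.1 h)
  -- a unique sum is the exponent zero
  have key : ∀ a b, a ∈ f.coeff.support → b ∈ g.coeff.support →
      UniqueAdd f.coeff.support g.coeff.support a b → a + b = 0 := by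
    intro a b ha hb hu
    by_contra hne
    have h1 := AddMonoidAlgebra.coeff_mul_add_of_uniqueAdd (f := f) (g := g) hu
    rw [h, AddMonoidAlgebra.one_def, AddMonoidAlgebra.coeff_single,
      Finsupp.single_eq_of_ne (by exact hne)] at h1
    rcases mul_eq_zero.1 h1.symm with h2 | h2
    · exact Finsupp.mem_support_iff.1 ha h2
    · exact Finsupp.mem_support_iff.1 hb h2
  by_cases hc : 1 < f.coeff.support.card * g.coeff.support.card
  · exfalso
    obtain ⟨p, hp, q, hq, hpq, hup, huq⟩ := TwoUniqueSums.uniqueAdd_of_one_lt_card hc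
    rw [Finset.mem_product] at hp hq
    have h1 := key p.1 p.2 hp.1 hp.2 hup
    have h2 := key q.1 q.2 hq.1 hq.2 huq
    have h3 := hup hq.1 hq.2 (by rw [h1, h2])
    exact hpq (Prod.ext h3.1.symm h3.2.symm)
  · push Not at hc
    have hcA := Finset.card_pos.2 hA
    have hcB := Finset.card_pos.2 hB
    have h1 : f.coeff.support.card = 1 := by nlinarith
    have h2 : g.coeff.support.card = 1 := by nlinarith
    obtain ⟨a, ha⟩ := Finset.card_eq_one.1 h1
    obtain ⟨b, hb⟩ := Finset.card_eq_one.1 h2
    have h3 : f = AddMonoidAlgebra.single a (f.coeff a) := by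
      conv_lhs => rw [← AddMonoidAlgebra.sum_coeff_single f]
      unfold Finsupp.sum
      rw [ha, Finset.sum_singleton]
    have h4 : g = AddMonoidAlgebra.single b (g.coeff b) := by
      conv_lhs => rw [← AddMonoidAlgebra.sum_coeff_single g]
      unfold Finsupp.sum
      rw [hb, Finset.sum_singleton]
    rw [h3, h4, AddMonoidAlgebra.single_mul_single, AddMonoidAlgebra.one_def] at h
    have h5 : f.coeff a * g.coeff b = 1 := by
      have h6 := congrArg (fun x : Lau d => x.coeff (a + b)) h
      simp only [AddMonoidAlgebra.coeff_single] at h6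
      rw [Finsupp.single_eq_same] at h6
      by_cases h7 : a + b = 0
      · rw [h7, Finsupp.single_eq_same] at h6
        exact h6
      · rw [Finsupp.single_eq_of_ne h7] at h6
        rcases mul_eq_zero.1 h6 with h8 | h8
        · exact absurd h8 (Finsupp.mem_support_iff.1 (by rw [ha]; exact Finset.mem_singleton_self a))
        · exact absurd h8 (Finsupp.mem_support_iff.1 (by rw [hb]; exact Finset.mem_singleton_self b))
    rw [h3, nrm_single]
    exact Int.natAbs_of_isUnit (IsUnit.of_mul_eq_one _ h5)

end Pool.Agent.Helper65.PF
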