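import Pool.Agent.Helper65.PF.Main

/-!
Transpositions of adjacent letters: few transpositions imply the Pisot substitution conjecture.
-/

set_option autoImplicit false

namespace Pool.Agent.Helper65.PF
open Pool.Agent.H812R2.PI Pool.Agent.Q132.PT
open scoped BigOperators
variable {d : ℕ}

/-- `Swaps n u v`: the word `v` is obtained from the word `u` by `n` transpositions of two adjacent
letters. -/
inductive Swaps {d : ℕ} : ℕ → List (Fin d) → List (Fin d) → Prop
  | refl (u : List (Fin d)) : Swaps 0 u u
  | step {n : ℕ} {u : List (Fin d)} (p s : List (Fin d)) (a b : Fin d) :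
      Swaps n u (p ++ a :: b :: s) → Swaps (n+1) u (p ++ b :: a :: s)

theorem Swaps.trans {n k : ℕ} {u v w : List (Fin d)} (h : Swaps n u v) (h' : Swaps k v w) :
    Swaps (n + k) u w := by
  induction h' with
  | refl => exact h
  | step p s a b _ ih => exact Swaps.step p s a b (ih h)

theorem Swaps.cons {n : ℕ} {u v : List (Fin d)} (c : Fin d) (h : Swaps n u v) :
    Swaps n (c :: u) (c :: v) := by
  induction h with
  | refl => exact Swaps.refl _
  | step p s a b _ ih => exact Swaps.step (c :: p) s a b ih

theorem Swaps.ab {n : ℕ} {u v : List (Fin d)} (h : Swaps n u v) : ab u = ab v := by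
  induction h with
  | refl => rfl
  | step p s a b _ ih =>
    rw [ih, ab_append, ab_append, ab_cons, ab_cons, ab_cons, ab_cons]
    abel

theorem dS_swap (S : Fin d → List (Fin d)) (p s : List (Fin d)) (a b : Fin d) :
    dS S (p ++ a :: b :: s) (p ++ b :: a :: s) ≤ cst S a b :=
  (dS_prefix S p _ _).trans (dS_swap_head S a b s)

theorem Swaps.dS {n : ℕ} {u v : List (Fin d)} (h : Swaps n u v) (S : Fin d → List (Fin d))
    (K : ℕ) (hK : ∀ x y, cst S x y ≤ K) : dS S u v ≤ n * K := by
  induction h with
  | refl => rw [dS_self]; exact Nat.zero_le _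
  | @step n v' p s a b _ ih =>
    refine (dS_tri S _ _ _).trans ((Nat.add_le_add ih ((dS_swap S p s a b).trans (hK a b))).trans ?_)
    rw [add_mul, one_mul]

theorem cst_comp' (S τ : Fin d → List (Fin d)) (i j : Fin d) :
    cst (comp S τ) i j = dS S (τ i ++ τ j) (τ j ++ τ i) := by
  unfold cst Pool.Agent.Q132.PT.dS
  rw [ext_comp, ext_comp]
  simp [ext]

theorem iter_succ' (T : Fin d → List (Fin d)) (n : ℕ) : iter T (n+1) = comp (iter T n) T := by
  funext a
  have h := iter_add T n 1 a
  rw [h]
  unfold comp
  congr 1
  simp [iter_succ, iter_zero, ext]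

theorem cst_le_two (x y : Fin d) : cst (iter (fun a => [a]) 0 : Fin d → List (Fin d)) x y ≤ 2 := by
  unfold cst dS dif
  refine (Finset.card_le_card Finset.sdiff_subset).trans ?_
  unfold E
  refine (List.toFinset_card_le _).trans ?_
  rw [length_edges]
  simp [ext, iter_zero]

theorem iter_zero_eq (T : Fin d → List (Fin d)) : iter T 0 = iter (fun a => [a]) 0 := by
  funext a
  simp [iter_zero]

/-- few transpositions give small costs -/
theorem cst_of_swaps (T : Fin d → List (Fin d)) (K : ℕ)
    (h : ∀ i j, ∃ n ≤ K, Swaps n (T i ++ T j) (T j ++ T i)) (k : ℕ) :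
    ∀ x y, cst (iter T k) x y ≤ 2 * K ^ k := by
  induction k with
  | zero =>
    intro x y
    rw [iter_zero_eq]
    simpa using cst_le_two x y
  | succ k ih =>
    intro x y
    obtain ⟨n, hn, hs⟩ := h x y
    rw [iter_succ', cst_comp']
    refine (hs.dS (iter T k) (2 * K ^ k) ih).trans ?_
    rw [pow_succ]
    calc n * (2 * K ^ k) ≤ K * (2 * K ^ k) := Nat.mul_le_mul_right _ hn
      _ = 2 * (K ^ k * K) := by ring

/-- **few transpositions imply the conjecture** -/
theorem semi_of_swaps {m : ℕ} (σ : Fin (m+1) → List (Fin (m+1))) (hM : PisotMat (inc σ)) (lam : ℝ)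
    (hlam : 1 < lam) (hroot : ((inc σ).map (Int.cast : ℤ → ℂ)).charpoly.IsRoot (lam : ℂ))
    (N : ℕ) (hN : 1 ≤ N)
    (h : ∀ i j, i ≠ j → ∃ n : ℕ, (n : ℝ) < lam ^ N ∧
      Swaps n (iter σ N i ++ iter σ N j) (iter σ N j ++ iter σ N i)) : SemiConjToral σ := by
  classical
  obtain ⟨P⟩ := Pool.Agent.Q132.PC.exists_PD' (inc σ) (fun i j => by unfold inc; positivity) hM
  have hP := lam_eq hM P lam hlam hroot
  refine Pool.Agent.Y316.Pisot.semi_of_iter P N hN ?_
  obtain ⟨T, hT⟩ : ∃ T, T = iter σ N := ⟨_, rfl⟩
  rw [← hT] at h ⊢
  have hincT : inc T = (inc σ) ^ N := by rw [hT, inc_iter]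
  obtain ⟨Q, hQ⟩ : ∃ Q : PD (inc T), Q.lam = lam ^ N := by
    rw [hincT, hP]
    exact ⟨P.pow N hN, rfl⟩
  have h' : ∀ i j, ∃ n : ℕ, (n : ℝ) < lam ^ N ∧ Swaps n (T i ++ T j) (T j ++ T i) := by
    intro i j
    by_cases hij : i = j
    · rw [hij]
      exact ⟨0, by simp; positivity, Swaps.refl _⟩
    · exact h i j hij
  choose f hf hfs using h'
  obtain ⟨K, hKd⟩ : ∃ K, K = Finset.univ.sup fun c : Fin (m+1) × Fin (m+1) => f c.1 c.2 := ⟨_, rfl⟩
  have hKc : ∀ i j, f i j ≤ K := by
    intro i j
    rw [hKd]
    exact Finset.le_sup (f := fun c : Fin (m+1) × Fin (m+1) => f c.1 c.2) (Finset.mem_univ (i, j))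
  have hKm : (K : ℝ) < Q.lam := by
    obtain ⟨c, -, hc⟩ := Finset.exists_mem_eq_sup (Finset.univ : Finset (Fin (m+1) × Fin (m+1)))
      Finset.univ_nonempty fun c => f c.1 c.2
    rw [hQ, hKd, hc]
    exact hf _ _
  have hdet : IsUnit (inc T).det := by
    rw [hincT, Matrix.det_pow]
    refine IsUnit.pow _ ?_
    rcases hM.2.1 with h | h <;> rw [h]
    · exact isUnit_one
    · exact isUnit_one.neg
  refine semi_of_small Q hdet fun ε hε => ?_
  have hcost : ∀ n i j, (cst (iter T n) i j : ℝ) ≤ 2 * (K : ℝ) ^ n := by
    intro n i j
    have h1 := cst_of_swaps T K (fun i j => ⟨f i j, hKc i j, hfs i j⟩) n i j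
    exact_mod_cast h1
  obtain ⟨n₀, hn₀⟩ := small_of_geom (C := 2) Q.lam_gt (Nat.cast_nonneg K) hKm
    (fun n => 2 * (K : ℝ) ^ n) (fun n => le_rfl) ε hε
  exact ⟨n₀, fun n hn x y => (hcost n x y).trans (hn₀ n hn)⟩

/-! ### sorting by moving first occurrences to the front -/

/-- the number of transpositions used for moving successively the letters of the second word to
the front of the first word -/
def gc : List (Fin d) → List (Fin d) → ℕ
  | _, [] => 0
  | u, a :: w => u.idxOf a + gc (u.erase a) w

theorem swaps_front (a : Fin d) (u : List (Fin d)) (h : a ∈ u) :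
    Swaps (u.idxOf a) u (a :: u.erase a) := by
  induction u with
  | nil => exact absurd h (List.not_mem_nil)
  | cons b u ih =>
    by_cases hab : b = a
    · subst hab
      rw [List.idxOf_cons_self, List.erase_cons_head]
      exact Swaps.refl _
    · have h1 : a ∈ u := by
        rcases List.mem_cons.1 h with h | h
        · exact absurd h.symm hab
        · exact h
      rw [List.idxOf_cons_ne _ hab, List.erase_cons_tail (by simpa using hab)]
      exact Swaps.step [] (u.erase a) b a ((ih h1).cons b)

theorem swaps_gc (u w : List (Fin d)) (h : u.Perm w) : Swaps (gc u w) u w := by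
  induction w generalizing u with
  | nil =>
    rw [List.perm_nil.1 h]
    exact Swaps.refl _
  | cons a w ih =>
    have ha : a ∈ u := h.mem_iff.2 (List.mem_cons_self ..)
    have h1 : (u.erase a).Perm w := by
      have h2 := h.erase a
      rwa [List.erase_cons_head] at h2
    exact (swaps_front a u ha).trans ((ih _ h1).cons a)

theorem append_diff {U V p : List (Fin d)} (h : ∀ k, p.count k ≤ U.count k) :
    (U ++ V).diff p = U.diff p ++ V := by
  induction p generalizing U with
  | nil => simp
  | cons b p ih =>
    have hb : b ∈ U := by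
      have h1 := h b
      rw [List.count_cons_self] at h1
      exact List.count_pos_iff.1 (by omega)
    rw [List.diff_cons, List.diff_cons, List.erase_append_left _ hb, ih]
    intro k
    have h1 := h k
    rw [List.count_erase]
    rw [List.count_cons] at h1
    by_cases hbk : b = k
    · subst hbk
      simp only [beq_self_eq_true, if_true] at h1 ⊢
      omega
    · have h2 : (b == k) = false := by simpa using hbk
      have h3 : (k == b) = false := by simpa using fun h => hbk h.symm
      simp only [h2, Bool.false_eq_true, if_false] at h1 ⊢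
      omega

/-- the edges number `t` of the two paths are different -/
def Bad (u w : List (Fin d)) (t : ℕ) : Prop :=
  ¬ (ab (u.take t) = ab (w.take t) ∧ u[t]? = w[t]?)

theorem count_of_ab {u w : List (Fin d)} (h : ab u = ab w) (k : Fin d) : u.count k = w.count k := by
  have h1 := congrFun h k
  unfold ab at h1
  exact_mod_cast h1

theorem perm_of_ab {u w : List (Fin d)} (h : ab u = ab w) : u.Perm w :=
  List.perm_iff_count.2 fun k => count_of_ab h k

open Classical in
theorem gc_aux (u₀ w₀ : List (Fin d)) (C : ℕ)
    (hC : ∀ t < w₀.length, ∃ s, s ≤ t + C ∧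
      ∀ k, (w₀.take (t+1)).count k ≤ (u₀.take s).count k) :
    ∀ (w p : List (Fin d)), w₀ = p ++ w →
      gc (u₀.diff p) w ≤ C * ((Finset.Ico p.length w₀.length).filter (Bad u₀ w₀)).card := by
  intro w
  induction w with
  | nil => intro p _; exact Nat.zero_le _
  | cons a w ih =>
    intro p hp
    have hlen : p.length < w₀.length := by rw [hp]; simp
    have ih' := ih (p ++ [a]) (by rw [hp]; simp)
    have h1 : (u₀.diff p).erase a = u₀.diff (p ++ [a]) := by
      rw [List.diff_append, List.diff_cons, List.diff_nil]
    rw [gc, h1]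
    have hIco : Finset.Ico p.length w₀.length =
        insert p.length (Finset.Ico (p ++ [a]).length w₀.length) := by
      rw [List.length_append, List.length_singleton]
      ext x
      simp only [Finset.mem_Ico, Finset.mem_insert]
      omega
    have hnot : p.length ∉ (Finset.Ico (p ++ [a]).length w₀.length).filter (Bad u₀ w₀) := by
      intro h
      have h2 := (Finset.mem_Ico.1 (Finset.mem_filter.1 h).1).1
      rw [List.length_append, List.length_singleton] at h2
      omega
    have htake : w₀.take p.length = p := by rw [hp]; simp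
    have htake' : w₀.take (p.length + 1) = p ++ [a] := by
      rw [hp]
      simp [List.take_append]
    have hget : w₀[p.length]? = some a := by rw [hp]; simp
    rw [hIco, Finset.filter_insert]
    by_cases hb : Bad u₀ w₀ p.length
    · rw [if_pos hb, Finset.card_insert_of_notMem hnot, mul_add, mul_one, add_comm]
      refine Nat.add_le_add ih' ?_
      obtain ⟨s, hs, hk⟩ := hC p.length hlen
      rw [htake'] at hk
      have hkp : ∀ k, p.count k ≤ (u₀.take s).count k := by
        intro k
        refine le_trans ?_ (hk k)
        rw [List.count_append]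
        exact Nat.le_add_right _ _
      have h2 : u₀.diff p = (u₀.take s).diff p ++ u₀.drop s := by
        conv_lhs => rw [← List.take_append_drop s u₀]
        exact append_diff hkp
      have h3 := List.subperm_append_diff_self_of_count_le fun k _ => hkp k
      have hlen2 := h3.length_eq
      rw [List.length_append, List.length_take] at hlen2
      have hmem : a ∈ (u₀.take s).diff p := by
        have h4 := h3.count_eq a
        rw [List.count_append] at h4
        have h5 := hk a
        rw [List.count_append, List.count_singleton_self] at h5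
        exact List.count_pos_iff.1 (by omega)
      rw [h2, List.idxOf_append_of_mem hmem]
      have h6 := List.idxOf_lt_length_of_mem hmem
      have h7 := min_le_left s u₀.length
      omega
    · rw [if_neg hb]
      unfold Bad at hb
      push Not at hb
      obtain ⟨hb1, hb2⟩ := hb
      rw [htake] at hb1
      rw [hget] at hb2
      have hkp : ∀ k, p.count k ≤ (u₀.take p.length).count k := fun k =>
        (count_of_ab hb1 k).ge
      have h2 : u₀.diff p = (u₀.take p.length).diff p ++ u₀.drop p.length := by
        conv_lhs => rw [← List.take_append_drop p.length u₀]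
        exact append_diff hkp
      have h3 := List.subperm_append_diff_self_of_count_le fun k _ => hkp k
      have hlen2 := h3.length_eq
      have hlen3 := (perm_of_ab hb1).length_eq
      rw [List.length_append] at hlen2
      have h4 : (u₀.take p.length).diff p = [] := List.eq_nil_of_length_eq_zero (by omega)
      have h5 : p.length < u₀.length := by
        by_contra h
        rw [List.getElem?_eq_none (by omega)] at hb2
        exact absurd hb2 (by simp)
      have h6 : u₀.drop p.length = a :: u₀.drop (p.length + 1) := by
        rw [List.drop_eq_getElem_cons h5]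
        congr 1
        rw [List.getElem?_eq_getElem h5] at hb2
        exact Option.some_injective _ hb2
      have h7 : (u₀.diff p).idxOf a = 0 := by
        rw [h2, h4, List.nil_append, h6, List.idxOf_cons_self]
      rw [h7, zero_add]
      exact ih'

open Classical in
/-- the number of transpositions is bounded by the number of different edges -/
theorem swaps_of_bad (u w : List (Fin d)) (C : ℕ) (hab : ab u = ab w)
    (hC : ∀ t < w.length, ∃ s, s ≤ t + C ∧ ∀ k, (w.take (t+1)).count k ≤ (u.take s).count k) :
    ∃ n ≤ C * ((Finset.range w.length).filter (Bad u w)).card, Swaps n u w := by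
  refine ⟨gc u w, ?_, swaps_gc u w (perm_of_ab hab)⟩
  have h := gc_aux u w C hC w [] rfl
  rw [List.diff_nil, List.length_nil] at h
  rwa [Finset.range_eq_Ico]

end Pool.Agent.Helper65.PF
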